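import Pool.Agent.H859.SC.N352PJIdx
import Pool.Graph.R_pool_sql_team_seeded_63374d34.N874.TW.Fld
import Pool.Agent.H859.TWC.Abs

/-!
# The 2-Selmer group over the extensions: the fields

Project TW (helper874), after project JM.
-/

set_option autoImplicit false
set_option linter.all false

open Polynomial IsDedekindDomain
open Pool.Agent.N352.PJ
open Pool.Agent.N874.JM (S_RAM LocF SelF exists_field irr_up)
open Pool.Agent.H859.N874.JM (PartsA)
open Pool.Agent.N874.PP (nm Ov Ev Sq1 U0 S_CLS S_LIN cl cl_add_aux exists_below below_unique)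
open scoped Classical IntermediateField

namespace Pool.Agent.H859.N874.TW
open Pool.Agent.N874.TW Pool.Agent.H859.PJ
/-- The primes in `S` split completely in `M`; `R` is the integral closure of `k[t]` in `M`. -/
def SplitS {k : Type} [Field k] (S : Finset k[X]) (M R : Type) [Field M] [Algebra k[X] M]
    [CommRing R] [IsDedekindDomain R] [Algebra R M] [IsFractionRing R M] [Algebra k[X] R] : Prop :=
  ∀ Q ∈ S, ∀ w : HeightOneSpectrum R, algebraMap k[X] R Q ∈ w.asIdeal →
    w.valuation M (algebraMap k[X] M Q) = WithZero.exp (-1 : ℤ) ∧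
    Function.Surjective ((Ideal.Quotient.mk w.asIdeal).comp (algebraMap k[X] R))

/-- `f` is irreducible modulo the primes which are ramified in `M`. -/
def RamIrr {k : Type} [Field k] (f : k[X][X]) (M R : Type) [Field M] [Algebra k[X] M]
    [CommRing R] [IsDedekindDomain R] [Algebra R M] [IsFractionRing R M] [Algebra k[X] R] : Prop :=
  ∀ P : k[X], P.Monic → Irreducible P → (∃ w : HeightOneSpectrum R, algebraMap k[X] R P ∈ w.asIdeal ∧
    w.valuation M (algebraMap k[X] M P) ≠ WithZero.exp (-1 : ℤ)) →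
    Irreducible (f.map (Ideal.Quotient.mk (Ideal.span {P})))

/-- The property of `f` for all extensions `M`. -/
def Uni {k : Type} [Field k] (K : Type) [Field K] [Algebra k[X] K] [IsFractionRing k[X] K]
    (S : Finset k[X]) (f F : k[X][X]) : Prop :=
  ∀ (M : Type) [Field M] [Algebra K M] [Algebra k[X] M] [IsScalarTower k[X] K M]
    [FiniteDimensional K M] [IsGalois K M] (R : Type) [CommRing R] [IsDedekindDomain R]
    [Algebra R M] [IsFractionRing R M] [Algebra k[X] R] [IsScalarTower k[X] R M]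
    [IsIntegralClosure R k[X] M] (n : ℕ), Module.finrank K M = 2 ^ n → SplitS S M R →
    RamIrr f M R → SelF R (F.map (algebraMap k[X] M))

theorem irr_scale {F : Type} [Field F] {p : F[X]} (hp : p ≠ 0) {a : F}
    (h : Irreducible (p.scaleRoots a)) : Irreducible p := by
  have hu : ∀ q : F[X], q ≠ 0 → (IsUnit q ↔ IsUnit (q.scaleRoots a)) := by
    intro q hq
    rw [isUnit_iff_degree_eq_zero, isUnit_iff_degree_eq_zero, degree_scaleRoots]
  refine ⟨fun h1 => h.not_isUnit ((hu p hp).1 h1), fun b c hbc => ?_⟩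
  have h1 : p.scaleRoots a = b.scaleRoots a * c.scaleRoots a := by
    rw [hbc, mul_scaleRoots_of_noZeroDivisors]
  have hb : b ≠ 0 := by
    rintro rfl
    rw [zero_mul] at hbc
    exact hp hbc
  have hc : c ≠ 0 := by
    rintro rfl
    rw [mul_zero] at hbc
    exact hp hbc
  rcases h.isUnit_or_isUnit h1 with h2 | h2
  · exact Or.inl ((hu b hb).2 h2)
  · exact Or.inr ((hu c hc).2 h2)

theorem irr_scale' {F : Type} [Field F] {p : F[X]} {a : F} (ha : a ≠ 0)
    (h : Irreducible p) : Irreducible (p.scaleRoots a) := by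
  have e : (p.scaleRoots a).scaleRoots a⁻¹ = p := by
    rw [← scaleRoots_mul, mul_inv_cancel₀ ha, scaleRoots_one]
  refine irr_scale (a := a⁻¹) (scaleRoots_ne_zero h.ne_zero _) ?_
  rw [e]
  exact h

theorem irr_mod {k : Type} [Field k] {f : k[X][X]} (hf : f.Monic) {P : k[X]} (hP : Irreducible P)
    {D : k[X]} (h : Irreducible ((f.scaleRoots D).map (Ideal.Quotient.mk (Ideal.span {P})))) :
    Irreducible (f.map (Ideal.Quotient.mk (Ideal.span {P}))) := by
  haveI : (Ideal.span {P}).IsMaximal := PrincipalIdealRing.isMaximal_of_irreducible hP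
  letI : Field (k[X] ⧸ Ideal.span {P}) := Ideal.Quotient.field _
  rw [map_scaleRoots _ _ _ (by rw [hf.leadingCoeff, map_one]; exact one_ne_zero)] at h
  exact irr_scale (hf.map _).ne_zero h

theorem irr_mod' {k : Type} [Field k] {f : k[X][X]} (hf : f.Monic) {P : k[X]} (hP : Irreducible P)
    {D : k[X]} (hD : ¬ P ∣ D) (h : Irreducible (f.map (Ideal.Quotient.mk (Ideal.span {P})))) :
    Irreducible ((f.scaleRoots D).map (Ideal.Quotient.mk (Ideal.span {P}))) := by
  haveI : (Ideal.span {P}).IsMaximal := PrincipalIdealRing.isMaximal_of_irreducible hP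
  letI : Field (k[X] ⧸ Ideal.span {P}) := Ideal.Quotient.field _
  rw [map_scaleRoots _ _ _ (by rw [hf.leadingCoeff, map_one]; exact one_ne_zero)]
  refine irr_scale' ?_ h
  rw [Ne, Ideal.Quotient.eq_zero_iff_mem, Ideal.mem_span_singleton]
  exact hD

/-- The theorem on the Selmer group over all `M`. -/
theorem selF (H : PartsA) {k : Type} [Field k] [Finite k] (K : Type) [Field K]
    [Algebra k[X] K] [IsFractionRing k[X] K] {g : ℕ} {f : k[X][X]} {N : ℕ} {r : k[X]}
    {S : Finset k[X]} {s : k[X] → k[X][X]} (h2 : (2 : k) ≠ 0) (hg : 1 ≤ g)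
    (hr : GoodRA g r) (hS : GoodSA g S s)
    (hF : FamA g N r S s f) (hnb : ¬ LBadA g N S s f) :
    ∃ J ⊆ S, Uni K S f (f.scaleRoots (∏ Q ∈ J, Q)) := by
  have hm := hF.ht.mon
  have hd := hF.ht.deg
  have hI := fun D hD => H.irk g k K f N r D hF.ht hr hF.inf hD
  haveI hfact : Fact (Irreducible (FK K f)) := ⟨(hI 1 one_ne_zero).1⟩
  have hsep : (FK K f).Separable := ((hI 1 one_ne_zero).2.2 hF.sq.ne_zero).1
  have hc := isGen_adjoinRoot (K := K) hm hd
  have hmK : (FK K f).Monic := hm.map _
  have hdK : (FK K f).natDegree = 2 * g + 1 := by rw [FK, hm.natDegree_map, hd]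
  haveI : FiniteDimensional K (AdjoinRoot (FK K f)) := hmK.finite_adjoinRoot
  haveI : Algebra.IsSeparable K (AdjoinRoot (FK K f)) := sep_adjoinRoot hsep
  haveI : IsDedekindDomain (integralClosure k[X] (AdjoinRoot (FK K f))) :=
    integralClosure.isDedekindDomain k[X] K _
  haveI : IsFractionRing (integralClosure k[X] (AdjoinRoot (FK K f))) (AdjoinRoot (FK K f)) :=
    integralClosure.isFractionRing_of_finite_extension K _
  haveI : Module.Finite k[X] (integralClosure k[X] (AdjoinRoot (FK K f))) :=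
    IsIntegralClosure.finite k[X] K (AdjoinRoot (FK K f)) _
  obtain ⟨J, hJ, hselK⟩ := Pool.Agent.H859.N874.JM.core2 (K := K) (L := AdjoinRoot (FK K f))
    (integralClosure k[X] (AdjoinRoot (FK K f))) H.cls H.lin H.exq H.ns H.parq H.recp H.sd H.tv
    H.lb hg h2 hc hr hS hF hnb
  refine ⟨J, hJ, ?_⟩
  intro M _ _ _ _ _ _ R _ _ _ _ _ _ _ n hM hQs hPr
  have hmM : (FK M f).Monic := hm.map _
  have hdM : (FK M f).natDegree = 2 * g + 1 := by rw [FK, hm.natDegree_map, hd]
  have hFmap : FK M f = (FK K f).map (algebraMap K M) := by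
    rw [FK, FK, Polynomial.map_map, ← IsScalarTower.algebraMap_eq k[X] K M]
  have hirrM : Irreducible (FK M f) := by
    rw [hFmap]
    exact irr_up hM hfact.out hmK (by rw [hdK]; exact odd_two_mul_add_one g)
  have hirrD : ∀ D : k[X], D ≠ 0 → Irreducible ((f.scaleRoots D).map (algebraMap k[X] M)) := by
    intro D hD
    have h1 : (f.scaleRoots D).Monic := (monic_scaleRoots_iff D).2 hm
    have h3 : ((f.scaleRoots D).map (algebraMap k[X] K)).natDegree = 2 * g + 1 := by
      rw [h1.natDegree_map, natDegree_scaleRoots, hd]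
    have h4 := irr_up hM (hI D hD).2.1 (h1.map _) (by rw [h3]; exact odd_two_mul_add_one g)
    rwa [Polynomial.map_map, ← IsScalarTower.algebraMap_eq k[X] K M] at h4
  obtain ⟨Ω, instF, instA, t, ht, hrk, htop, hfin, hmin⟩ := exists_field hirrM hmM
  rw [hdM] at hrk
  letI : Algebra K Ω := ((algebraMap M Ω).comp (algebraMap K M)).toAlgebra
  haveI : IsScalarTower K M Ω := IsScalarTower.of_algebraMap_eq fun x => rfl
  letI : Algebra k[X] Ω := ((algebraMap M Ω).comp (algebraMap k[X] M)).toAlgebra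
  haveI : IsScalarTower k[X] M Ω := IsScalarTower.of_algebraMap_eq fun x => rfl
  have ht' : (FK K f).eval₂ (algebraMap K Ω) t = 0 := by
    rw [hFmap, aeval_def, eval₂_map] at ht
    exact ht
  letI : Algebra (AdjoinRoot (FK K f)) Ω := (AdjoinRoot.lift (algebraMap K Ω) t ht').toAlgebra
  have hL : ∀ x : AdjoinRoot (FK K f), algebraMap (AdjoinRoot (FK K f)) Ω x =
      AdjoinRoot.lift (algebraMap K Ω) t ht' x := fun x => rfl
  haveI : IsScalarTower K (AdjoinRoot (FK K f)) Ω := by
    refine IsScalarTower.of_algebraMap_eq fun x => ?_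
    rw [hL, AdjoinRoot.algebraMap_eq, AdjoinRoot.lift_of]
  haveI : IsScalarTower k[X] (AdjoinRoot (FK K f)) Ω := by
    refine IsScalarTower.of_algebraMap_eq fun x => ?_
    rw [IsScalarTower.algebraMap_apply k[X] K (AdjoinRoot (FK K f)),
      ← IsScalarTower.algebraMap_apply K (AdjoinRoot (FK K f)) Ω,
      IsScalarTower.algebraMap_apply k[X] M Ω, IsScalarTower.algebraMap_apply k[X] K M,
      ← IsScalarTower.algebraMap_apply K M Ω]
  haveI : FiniteDimensional K Ω := FiniteDimensional.trans K M Ω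
  haveI : Algebra.IsSeparable M Ω := by
    have hs : (FK M f).Separable := by
      rw [hFmap]
      exact hsep.map
    have hsep' : IsSeparable M t := by
      unfold IsSeparable
      rw [hmin]
      exact hs
    haveI := (IntermediateField.isSeparable_adjoin_simple_iff_isSeparable M Ω).2 hsep'
    rw [htop] at this
    exact AlgEquiv.Algebra.isSeparable (IntermediateField.topEquiv (F := M) (E := Ω))
  haveI : Algebra.IsSeparable K Ω := Algebra.IsSeparable.trans K M Ω
  have hroot : algebraMap (AdjoinRoot (FK K f)) Ω (AdjoinRoot.root (FK K f)) = t := by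
    rw [hL, AdjoinRoot.lift_root]
  have hsel := selF_mid (K := K) (L := AdjoinRoot (FK K f)) (Ω := Ω)
    (integralClosure k[X] (AdjoinRoot (FK K f))) R H h2 hg hc hS hF hJ hselK
    (by rw [hroot]; exact htop) hQs hPr hM hrk
  rw [hroot] at hsel
  have hD0 : (∏ Q ∈ J, Q) ≠ 0 := by
    rw [Finset.prod_ne_zero_iff]
    exact fun Q hQ => (hS Q (hJ hQ)).2.1.ne_zero
  generalize (∏ Q ∈ J, Q) = D at hD0 hsel ⊢
  intro h hcop hnorm hloc
  set F' : M[X] := (f.scaleRoots D).map (algebraMap k[X] M) with hF'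
  haveI hfact' : Fact (Irreducible F') := ⟨hirrD D hD0⟩
  set Θ : Ω := algebraMap k[X] Ω D * t with hΘ
  have hrootD : aeval Θ F' = 0 := by
    rw [hF', aeval_map_algebraMap]
    have h1 := scaleRoots_eval₂_mul (p := f) (algebraMap k[X] Ω) t D
    have h3 : eval₂ (algebraMap k[X] Ω) t f = 0 := by
      rw [FK, aeval_map_algebraMap, aeval_def] at ht
      exact ht
    rw [h3, mul_zero] at h1
    rw [aeval_def]
    exact h1
  have hmF' : F'.Monic := ((monic_scaleRoots_iff D).2 hm).map _
  let φ : AdjoinRoot F' →ₐ[M] Ω := AdjoinRoot.liftAlgHom F' (Algebra.ofId M _) Θ hrootD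
  have hφmk : ∀ p : M[X], φ (AdjoinRoot.mk F' p) = aeval Θ p := by
    intro p
    have h1 := AdjoinRoot.liftAlgHom_mk F' (Algebra.ofId M Ω) Θ hrootD p
    rw [Algebra.toRingHom_ofId, ← Polynomial.aeval_def] at h1
    exact h1
  have hφinj : Function.Injective φ := φ.toRingHom.injective
  haveI : FiniteDimensional M (AdjoinRoot F') := hmF'.finite_adjoinRoot
  have hrk' : Module.finrank M (AdjoinRoot F') = Module.finrank M Ω := by
    rw [hrk, (AdjoinRoot.powerBasis hmF'.ne_zero).finrank, AdjoinRoot.powerBasis_dim, hF',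
      ((monic_scaleRoots_iff D).2 hm).natDegree_map, natDegree_scaleRoots, hd]
  have hφsurj : Function.Surjective φ :=
    (LinearMap.injective_iff_surjective_of_finrank_eq_finrank (f := φ.toLinearMap) hrk').1 hφinj
  let e : AdjoinRoot F' ≃ₐ[M] Ω := AlgEquiv.ofBijective φ ⟨hφinj, hφsurj⟩
  have hemk : ∀ p : M[X], e (AdjoinRoot.mk F' p) = aeval Θ p := hφmk
  have hne : aeval Θ h ≠ 0 := by
    intro h0
    obtain ⟨u, v, huv⟩ := hcop
    have := congrArg (aeval Θ) huv
    rw [map_add, map_mul, map_mul, hrootD, h0, mul_zero, mul_zero, add_zero, map_one] at this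
    exact zero_ne_one this
  have hnorm' : IsSquare (Algebra.norm M (aeval Θ h)) := by
    rw [← hemk, Algebra.norm_eq_of_algEquiv]
    exact hnorm
  obtain ⟨y, hy⟩ := hsel h hne hnorm' hloc
  obtain ⟨z, rfl⟩ := hφsurj y
  obtain ⟨s', rfl⟩ := AdjoinRoot.mk_surjective z
  refine ⟨s', ?_⟩
  rw [← AdjoinRoot.mk_eq_zero]
  apply hφinj
  rw [map_zero, hφmk, map_sub, map_pow, sub_eq_zero]
  rw [hφmk] at hy
  rw [pow_two]
  exact hy

end Pool.Agent.H859.N874.TW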