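import Pool.Agent.H859.TWC.Cnt
import Pool.Graph.R_pool_sql_team_seeded_63374d34.N874.TW.Final

/-!
# A positive proportion of a residue class, over many 2-extensions and all their subfields
-/

set_option autoImplicit false
set_option linter.all false

open Polynomial IsDedekindDomain
open Pool.Agent.N352.PJ (Cg dsc)
open scoped Classical

namespace Pool.Agent.H859.TWC

open Pool.Agent.N874.JM (SelF LocF irr_up)
open Pool.Agent.H859.PJ Pool.Agent.H859.N874.TW

theorem dsc_discr {k : Type} [Field k] {g : ℕ} {f : k[X][X]} (hf : f.Monic)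
    (hd : f.natDegree = 2 * g + 1) (P : k[X]) : P ^ 2 ∣ dsc g f ↔ P ^ 2 ∣ f.discr := by
  have h1 := Polynomial.resultant_deriv (f := f) (by
    rw [← natDegree_pos_iff_degree_pos, hd]
    omega)
  rw [hf.leadingCoeff, mul_one, hd, Nat.add_sub_cancel] at h1
  unfold dsc
  rw [h1]
  rcases neg_one_pow_eq_or k[X] ((2 * g + 1) * (2 * g) / 2) with h2 | h2
  · rw [h2, one_mul]
  · rw [h2, neg_one_mul, dvd_neg]

/-- The residue classes: it is enough that the discriminant of `F₁` is not divisible by the squares of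
the prime divisors of `m`. -/
theorem goodM_sq {k : Type} [Field k] {g : ℕ} {m : k[X]} (hm : m ≠ 0) {F₁ : k[X][X]}
    (hF : F₁.Monic) (hd : F₁.natDegree = 2 * g + 1)
    (h : ∀ P : k[X], Irreducible P → P ∣ m → ¬ P ^ 2 ∣ F₁.discr) : GoodM g (m ^ 2) F₁ := by
  refine ⟨pow_ne_zero 2 hm, hF, hd, fun P hP hPm f hf hfd hcg hdvd => ?_⟩
  have hPm' : P ∣ m := hP.prime.dvd_of_dvd_pow hPm
  apply h P hP hPm'
  rw [← dsc_discr hF hd]
  have hmap : f.map (Ideal.Quotient.mk (Ideal.span {P ^ 2})) =
      F₁.map (Ideal.Quotient.mk (Ideal.span {P ^ 2})) := by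
    ext j
    rw [coeff_map, coeff_map]
    exact Ideal.Quotient.eq.2 (Ideal.mem_span_singleton.2
      ((pow_dvd_pow_of_dvd hPm' 2).trans (hcg j)))
  have h1 : Ideal.Quotient.mk (Ideal.span {P ^ 2}) (dsc g f) =
      Ideal.Quotient.mk (Ideal.span {P ^ 2}) (dsc g F₁) := by
    unfold dsc
    rw [← resultant_map_map, ← resultant_map_map, ← derivative_map, ← derivative_map, hmap]
  rw [← Ideal.mem_span_singleton, ← Ideal.Quotient.eq_zero_iff_mem] at hdvd ⊢
  rw [← h1]
  exact hdvd

/-- From `M` to the fields below. -/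
theorem uni_down {k : Type} [Field k] [Finite k] (h2 : (2 : k) ≠ 0) {g : ℕ}
    (K : Type) [Field K] [Algebra k[X] K] [IsFractionRing k[X] K] (M : Type) [Field M]
    [Algebra K M] [Algebra k[X] M] [IsScalarTower k[X] K M] [FiniteDimensional K M]
    [IsGalois K M] (R : Type) [CommRing R] [IsDedekindDomain R]
    [Algebra R M] [IsFractionRing R M] [Algebra k[X] R] [IsScalarTower k[X] R M]
    [IsIntegralClosure R k[X] M] {n : ℕ} (hM : Module.finrank K M = 2 ^ n) {f : k[X][X]}
    (hmon : f.Monic) (hdeg : f.natDegree = 2 * g + 1) (h4 : (f.map (algebraMap k[X] K)).Separable)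
    (h5 : Irreducible (f.map (algebraMap k[X] K))) (h6 : SelF R (f.map (algebraMap k[X] M)))
    (E : IntermediateField K M) (R' : Type) [CommRing R'] [IsDedekindDomain R'] [Algebra R' E]
    [IsFractionRing R' E] [Algebra k[X] R'] [IsScalarTower k[X] R' E]
    [IsIntegralClosure R' k[X] E] : SelF R' (f.map (algebraMap k[X] E)) := by
  haveI : IsScalarTower k[X] K E := IntermediateField.isScalarTower _
  haveI : IsScalarTower k[X] E M := by
    refine IsScalarTower.of_algebraMap_eq fun x => ?_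
    rfl
  have hmapE : f.map (algebraMap k[X] E) =
      (f.map (algebraMap k[X] K)).map (algebraMap K E) := by
    rw [Polynomial.map_map, ← IsScalarTower.algebraMap_eq k[X] K E]
  have hmapM : f.map (algebraMap k[X] M) =
      (f.map (algebraMap k[X] E)).map (algebraMap E M) := by
    rw [Polynomial.map_map, ← IsScalarTower.algebraMap_eq k[X] E M]
  have hmapM' : f.map (algebraMap k[X] M) =
      (f.map (algebraMap k[X] K)).map (algebraMap K M) := by
    rw [Polynomial.map_map, ← IsScalarTower.algebraMap_eq k[X] K M]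
  have hmK : (f.map (algebraMap k[X] K)).Monic := hmon.map _
  have hdK : (f.map (algebraMap k[X] K)).natDegree = 2 * g + 1 := by
    rw [hmon.natDegree_map, hdeg]
  have hodd : Odd (f.map (algebraMap k[X] K)).natDegree := by
    rw [hdK]; exact odd_two_mul_add_one g
  have hfE : Module.finrank K E ∣ 2 ^ n := by
    rw [← hM, ← Module.finrank_mul_finrank K E M]
    exact dvd_mul_right _ _
  obtain ⟨m, -, hm⟩ := (Nat.dvd_prime_pow Nat.prime_two).1 hfE
  have h2E : (2 : E) ≠ 0 := by
    letI : Algebra k E := ((algebraMap k[X] E).comp C).toAlgebra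
    have h3 : algebraMap k E 2 ≠ 0 := by
      rw [Ne, map_eq_zero_iff _ (algebraMap k E).injective]
      exact h2
    rwa [map_ofNat] at h3
  have hiE : Irreducible (f.map (algebraMap k[X] E)) := by
    rw [hmapE]
    exact irr_up hm h5 hmK hodd
  have hiM : Irreducible ((f.map (algebraMap k[X] E)).map (algebraMap E M)) := by
    rw [← hmapM, hmapM']
    exact irr_up hM h5 hmK hodd
  refine Pool.Agent.H859.SC.sel_down (k := k) (M := E) (M' := M) R' R h2E (hmon.map _) ?_ ?_
    hiE hiM ?_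
  · rw [hmon.natDegree_map, hdeg]
    exact odd_two_mul_add_one g
  · rw [hmapE]
    exact h4.map
  · rw [← hmapM]
    exact h6

theorem final {g : ℕ} (k : Type) [Field k] [Finite k] (hg : 1 ≤ g)
    (h2 : (2 : k) ≠ 0) (K : Type) [Field K] [Algebra k[X] K]
    [IsFractionRing k[X] K] {m₀ : k[X]} {F₁ : k[X][X]} (hM₀ : GoodM g m₀ F₁) :
    ∃ S : Finset k[X], (∀ Q ∈ S, Q.Monic ∧ Irreducible Q ∧ ¬ Q ∣ m₀) ∧
    ∃ c : ℝ, 0 < c ∧ ∃ N₀ : ℕ, ∀ N ≥ N₀, {f : k[X][X] | HtA g N f}.Finite ∧
    c * ({f : k[X][X] | HtA g N f}.ncard : ℝ) ≤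
      ({f : k[X][X] | HtA g N f ∧ MiniA g f ∧ (f.map (algebraMap k[X] K)).Separable ∧
        Irreducible (f.map (algebraMap k[X] K)) ∧ Cg m₀ f F₁ ∧ Uni K S f f}.ncard : ℝ) :=
  mainM Pool.Agent.H859.N874.JM.parts Pool.Agent.H859.N874.JM.bad k hg h2 K hM₀

end Pool.Agent.H859.TWC
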