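import Pool.Agent.H859.TWC.Giv

/-!
# A positive proportion of a residue class, over many 2-extensions with a given one: counting
-/

set_option autoImplicit false
set_option linter.all false

open Polynomial IsDedekindDomain
open Pool.Agent.N352.PJ
open Pool.Agent.N415.PJMAIN hiding ht_card ht_scale
open Pool.Agent.H859.N415.PJMAIN
open Pool.Agent.N874.PP (nm Ov Ev Sq1 U0)
open scoped Classical IntermediateField

namespace Pool.Agent.H859.TWC

open Pool.Agent.N874.JM Pool.Agent.H859.PJ Pool.Agent.H859.N874.TW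
open Pool.Agent.H859.N874.JM (PartsA)

/-- A positive proportion of the residue class, over all `M`, with conditions on the primes in `S`. -/
theorem mainQ (H : PartsA) (hBAD : S_BADA) {g : ℕ}
    (k : Type) [Field k] [Finite k] (hg : 1 ≤ g) (h2 : (2 : k) ≠ 0)
    (K : Type) [Field K] [Algebra k[X] K] [IsFractionRing k[X] K] {m₀ : k[X]} {F₁ : k[X][X]}
    (hM₀ : GoodM g m₀ F₁) (Ψ : k[X] → Prop)
    (hEX : ∀ a : ℕ, ∃ S : Finset k[X], (∀ Q ∈ S, Q.Monic ∧ Irreducible Q) ∧ S.card = a ∧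
      ∀ Q ∈ S, ¬ Q ∣ m₀ ∧ m₀ ∣ Q - 1 ∧ Ψ Q) :
    ∃ S : Finset k[X], (∀ Q ∈ S, Q.Monic ∧ Irreducible Q ∧ ¬ Q ∣ m₀ ∧ Ψ Q) ∧
    ∃ c : ℝ, 0 < c ∧ ∃ N₀ : ℕ, ∀ N ≥ N₀, {f : k[X][X] | HtA g N f}.Finite ∧
    c * ({f : k[X][X] | HtA g N f}.ncard : ℝ) ≤
      ({f : k[X][X] | HtA g N f ∧ MiniA g f ∧ (f.map (algebraMap k[X] K)).Separable ∧
        Irreducible (f.map (algebraMap k[X] K)) ∧ Cg m₀ f F₁ ∧ Uni K S f f}.ncard : ℝ) := by
  obtain ⟨r, hr⟩ := Pool.Agent.H859.Tch.gr g k hg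
  haveI := Fintype.ofFinite k
  obtain ⟨S, s, c, hS, hdis, hsp, hc, N₀, hN₀⟩ := good_cardM hBAD hg h2 r hM₀
    (fun Q => m₀ ∣ Q - 1 ∧ Ψ Q) (by
      intro a
      obtain ⟨S, hS, hcard, hS1⟩ := hEX a
      obtain ⟨h, hh⟩ := (Pool.Agent.H859.Tch.tch g k hg S hS).2
      exact ⟨S, h, hh, hcard, fun Q hQ => (hS1 Q hQ).1, fun Q hQ => (hS1 Q hQ).2⟩)
  refine ⟨S, fun Q hQ => ⟨(hS Q hQ).1, (hS Q hQ).2.1, hdis Q hQ, (hsp Q hQ).2⟩, ?_⟩
  set e : ℕ := (∏ Q ∈ S, Q).natDegree with he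
  have hq : (0 : ℝ) < Nat.card k := by exact_mod_cast Nat.card_pos
  have hq1 : (1 : ℝ) ≤ Nat.card k := by exact_mod_cast Nat.card_pos
  have hS0 : (∏ Q ∈ S, Q) ≠ 0 := by
    rw [Finset.prod_ne_zero_iff]
    exact fun Q hQ => (hS Q hQ).2.1.ne_zero
  refine ⟨c / (2 ^ S.card * (Nat.card k : ℝ) ^ ((e + 1) * ddA g + (2 * g + 1))), by positivity,
    2 * N₀ + e, fun M' hM' => ⟨(ht_card g M').1, ?_⟩⟩
  obtain ⟨N, hN, hN1, hN2⟩ : ∃ N, N₀ ≤ N ∧ 2 * N + e ≤ M' ∧ M' ≤ 2 * N + e + 1 :=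
    ⟨(M' - e) / 2, by omega, by omega, by omega⟩
  have hG' := hN₀ N hN
  set Hs := {f : k[X][X] | HtA g M' f ∧ MiniA g f ∧ (f.map (algebraMap k[X] K)).Separable ∧
        Irreducible (f.map (algebraMap k[X] K)) ∧ Cg m₀ f F₁ ∧ Uni K S f f} with hH
  set G := {f : k[X][X] | FamM g N r S s m₀ F₁ f ∧ ¬ LBadA g N S s f} with hGdef
  have hHf : Hs.Finite := (ht_card g M').1.subset fun f hf => hf.1
  have hGf : G.Finite := (ht_card g (2 * N)).1.subset fun f hf => hf.1.fam.ht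
  have hJ0 : ∀ J ⊆ S, (∏ Q ∈ J, Q) ≠ 0 := by
    intro J hJ
    rw [Finset.prod_ne_zero_iff]
    exact fun Q hQ => (hS Q (hJ hQ)).2.1.ne_zero
  have hJs : ∀ J ⊆ S, Squarefree (∏ Q ∈ J, Q) := by
    intro J hJ
    refine Finset.squarefree_prod_of_pairwise_isCoprime ?_ fun Q hQ => (hS Q (hJ hQ)).2.1.squarefree
    intro Q hQ Q' hQ' hne
    show IsRelPrime Q Q'
    refine IsCoprime.isRelPrime ?_
    rw [(hS Q (hJ hQ)).2.1.coprime_iff_not_dvd]
    intro hd
    exact hne (eq_of_monic_of_associated (hS Q (hJ hQ)).1 (hS Q' (hJ hQ')).1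
      ((hS Q (hJ hQ)).2.1.associated_of_dvd (hS Q' (hJ hQ')).2.1 hd))
  have hcard := card_fib hGf hHf S (fun J f => f.scaleRoots (∏ Q ∈ J, Q)) (by
      intro f hf
      obtain ⟨J, hJ, hsel⟩ := selF H K h2 hg hr hS hf.1.fam hf.2
      have hDle : (∏ Q ∈ J, Q).natDegree ≤ e :=
        natDegree_le_of_dvd (Finset.prod_dvd_prod_of_subset _ _ _ hJ) hS0
      obtain ⟨-, i2, i3⟩ := H.irk g k K f N r (∏ Q ∈ J, Q) hf.1.fam.ht hr hf.1.fam.inf (hJ0 J hJ)
      exact ⟨J, hJ, ht_scale hf.1.fam.ht (by omega),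
        mini_scale hg hf.1.fam.ht.mon hf.1.fam.ht.deg hf.1.fam.sq (hJs J hJ),
        (i3 hf.1.fam.sq.ne_zero).2, i2,
        cg_scale (prod_one J fun Q hQ => (hsp Q (hJ hQ)).1) hf.1.con, uni_self hf.1.fam.ht.mon hsel⟩) (by
      intro J hJ x hx y hy hxy
      exact scale_inj (hJ0 J hJ) (by rw [hx.1.fam.ht.deg, hy.1.fam.ht.deg]) hxy)
  have hcard' : (G.ncard : ℝ) ≤ 2 ^ S.card * Hs.ncard := by exact_mod_cast hcard
  have hM'' : ({f : k[X][X] | HtA g M' f}.ncard : ℝ) ≤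
      (Nat.card k : ℝ) ^ (2 * N * ddA g) *
        (Nat.card k : ℝ) ^ ((e + 1) * ddA g + (2 * g + 1)) := by
    have h3 : ({f : k[X][X] | HtA g M' f}.ncard : ℝ) ≤
        (Nat.card k : ℝ) ^ (M' * ddA g + (2 * g + 1)) := by
      exact_mod_cast (ht_card (k := k) g M').2
    refine h3.trans ?_
    rw [← pow_add]
    refine pow_le_pow_right₀ hq1 ?_
    have h4 : M' * ddA g ≤ (2 * N + e + 1) * ddA g := Nat.mul_le_mul_right _ hN2
    calc M' * ddA g + (2 * g + 1) ≤ (2 * N + e + 1) * ddA g + (2 * g + 1) := by omega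
      _ = _ := by ring
  have hpow : (0 : ℝ) < (Nat.card k : ℝ) ^ ((e + 1) * ddA g + (2 * g + 1)) := by positivity
  calc c / (2 ^ S.card * (Nat.card k : ℝ) ^ ((e + 1) * ddA g + (2 * g + 1))) *
        ({f : k[X][X] | HtA g M' f}.ncard : ℝ)
      ≤ c / (2 ^ S.card * (Nat.card k : ℝ) ^ ((e + 1) * ddA g + (2 * g + 1))) *
        ((Nat.card k : ℝ) ^ (2 * N * ddA g) *
          (Nat.card k : ℝ) ^ ((e + 1) * ddA g + (2 * g + 1))) :=
        mul_le_mul_of_nonneg_left hM'' (by positivity)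
    _ = c * (Nat.card k : ℝ) ^ (2 * N * ddA g) / 2 ^ S.card := by
        field_simp
    _ ≤ (G.ncard : ℝ) / 2 ^ S.card := by gcongr
    _ ≤ (2 ^ S.card * Hs.ncard) / 2 ^ S.card := by gcongr
    _ = Hs.ncard := by field_simp


theorem degree_C_mul_le' {k : Type} [Field k] (a : k[X]) (p : k[X][X]) :
    (C a * p).degree ≤ p.degree := by
  by_cases ha : a = 0
  · rw [ha, C_0, zero_mul, degree_zero]
    exact bot_le
  · rw [degree_C_mul ha]

/-- two congruences -/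
theorem crt2 {k : Type} [Field k] {n : ℕ} {a b : k[X]} (hab : IsCoprime a b) {f h : k[X][X]}
    (hf : f.Monic) (hfd : f.natDegree = n) (hh : h.Monic) (hhd : h.natDegree = n) (hn : 1 ≤ n) :
    ∃ f₂ : k[X][X], f₂.Monic ∧ f₂.natDegree = n ∧ Cg a f₂ f ∧ Cg b f₂ h := by
  obtain ⟨u, v, huv⟩ := hab
  have hlt : (C (u * a) * (h - f)).degree < f.degree := by
    refine lt_of_le_of_lt (degree_C_mul_le' _ _) ?_
    have h1 : h.degree = f.degree := by
      rw [degree_eq_natDegree hh.ne_zero, degree_eq_natDegree hf.ne_zero, hfd, hhd]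
    have h2 := degree_sub_lt h1 hh.ne_zero (by rw [hh.leadingCoeff, hf.leadingCoeff])
    rwa [h1] at h2
  refine ⟨f + C (u * a) * (h - f), hf.add_of_left hlt, ?_, fun j => ?_, fun j => ?_⟩
  · rw [natDegree_add_eq_left_of_degree_lt hlt, hfd]
  · rw [coeff_add, coeff_C_mul, add_sub_cancel_left]
    exact ((dvd_mul_left a u).mul_right _)
  · rw [coeff_add, coeff_C_mul, coeff_sub]
    refine ⟨- (v * (h.coeff j - f.coeff j)), ?_⟩
    linear_combination (h.coeff j - f.coeff j) * huv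

/-- many congruences -/
theorem crtT {k : Type} [Field k] {n : ℕ} (hn : 1 ≤ n) {a : k[X]} {f : k[X][X]}
    (hf : f.Monic) (hfd : f.natDegree = n) (h : k[X] → k[X][X]) (T : Finset k[X])
    (hT : ∀ P ∈ T, P.Monic ∧ Irreducible P ∧ ¬ P ∣ a ∧ (h P).Monic ∧ (h P).natDegree = n) :
    ∃ f₂ : k[X][X], f₂.Monic ∧ f₂.natDegree = n ∧ Cg a f₂ f ∧ ∀ P ∈ T, Cg P f₂ (h P) := by
  induction T using Finset.induction_on with
  | empty => exact ⟨f, hf, hfd, fun j => by rw [sub_self]; exact dvd_zero _, by simp⟩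
  | insert P T hP ih =>
    obtain ⟨f₁, i1, i2, i3, i4⟩ := ih fun Q hQ => hT Q (Finset.mem_insert_of_mem hQ)
    obtain ⟨p1, p2, p3, p4, p5⟩ := hT P (Finset.mem_insert_self _ _)
    have hco : IsCoprime (a * ∏ Q ∈ T, Q) P := by
      refine IsCoprime.mul_left ((p2.coprime_iff_not_dvd).2 p3).symm
        (IsCoprime.prod_left fun Q hQ => ?_)
      have q := hT Q (Finset.mem_insert_of_mem hQ)
      rw [q.2.1.coprime_iff_not_dvd]
      intro hd
      have e := eq_of_monic_of_associated q.1 p1 (q.2.1.associated_of_dvd p2 hd)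
      exact hP (e ▸ hQ)
    obtain ⟨f₂, j1, j2, j3, j4⟩ := crt2 hco i1 i2 p4 p5 hn
    have hch : ∀ {b : k[X]} {x : k[X][X]}, b ∣ a * ∏ Q ∈ T, Q → Cg b f₁ x → Cg b f₂ x := by
      intro b x hb hx j
      have e : f₂.coeff j - x.coeff j = (f₂.coeff j - f₁.coeff j) + (f₁.coeff j - x.coeff j) := by
        ring
      rw [e]
      exact dvd_add (hb.trans (j3 j)) (hx j)
    refine ⟨f₂, j1, j2, hch (dvd_mul_right _ _) i3, fun Q hQ => ?_⟩
    rcases Finset.mem_insert.1 hQ with rfl | hQ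
    · exact j4
    · exact hch ((Finset.dvd_prod_of_mem _ hQ).mul_left _) (i4 Q hQ)

theorem cg_map {k : Type} [Field k] {P : k[X]} {f h : k[X][X]} (hc : Cg P f h) :
    f.map (Ideal.Quotient.mk (Ideal.span {P})) = h.map (Ideal.Quotient.mk (Ideal.span {P})) := by
  ext j
  rw [coeff_map, coeff_map]
  exact Ideal.Quotient.eq.2 (Ideal.mem_span_singleton.2 (hc j))

/-- An irreducible reduction has a discriminant prime to `P`. -/
theorem dsc_irr {k : Type} [Field k] [Finite k] {g : ℕ} {P : k[X]} (hP : Irreducible P)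
    {f : k[X][X]} (hf : f.Monic) (hd : f.natDegree = 2 * g + 1)
    (hi : Irreducible (f.map (Ideal.Quotient.mk (Ideal.span {P})))) : ¬ P ∣ dsc g f := by
  have hmax : (Ideal.span {P}).IsMaximal := PrincipalIdealRing.isMaximal_of_irreducible hP
  let _ : Field (k[X] ⧸ Ideal.span {P}) := Ideal.Quotient.field _
  haveI : Finite (k[X] ⧸ Ideal.span {P}) := by
    have h0 : (P * C P.leadingCoeff⁻¹).Monic := monic_mul_leadingCoeff_inv hP.ne_zero
    have hu : IsUnit (C P.leadingCoeff⁻¹ : k[X]) :=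
      isUnit_C.2 (isUnit_iff_ne_zero.2 (inv_ne_zero (leadingCoeff_ne_zero.2 hP.ne_zero)))
    have he : Ideal.span {P * C P.leadingCoeff⁻¹} = Ideal.span {P} :=
      Ideal.span_singleton_mul_right_unit hu P
    have h1 : Module.Finite k (AdjoinRoot (P * C P.leadingCoeff⁻¹)) := h0.finite_adjoinRoot
    have h2 : Finite (AdjoinRoot (P * C P.leadingCoeff⁻¹)) := Module.finite_of_finite k
    have h3 : Finite (k[X] ⧸ Ideal.span {P * C P.leadingCoeff⁻¹}) := h2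
    rwa [he] at h3
  intro hdvd
  have hsep : (f.map (Ideal.Quotient.mk (Ideal.span {P}))).Separable :=
    PerfectField.separable_of_irreducible hi
  have h1 : (f.map (Ideal.Quotient.mk (Ideal.span {P}))).resultant
      (derivative (f.map (Ideal.Quotient.mk (Ideal.span {P})))) (2 * g + 1) (2 * g) = 0 := by
    rw [derivative_map, resultant_map_map]
    exact Ideal.Quotient.eq_zero_iff_mem.2 (Ideal.mem_span_singleton.2 hdvd)
  have hdm : (f.map (Ideal.Quotient.mk (Ideal.span {P}))).natDegree = 2 * g + 1 := by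
    rw [hf.natDegree_map, hd]
  have hc : (f.map (Ideal.Quotient.mk (Ideal.span {P}))).coeff (2 * g + 1) ≠ 0 := by
    rw [← hdm, (hf.map _).coeff_natDegree]
    exact one_ne_zero
  exact Pool.Agent.H859.DA.res_ne_of hdm.le hc hsep h1

/-- `P` is unramified. -/
def Unr {k : Type} [Field k] (R : Type) [CommRing R] [Algebra k[X] R] (P : k[X]) : Prop :=
  ∀ w : HeightOneSpectrum R, algebraMap k[X] R P ∈ w.asIdeal → algebraMap k[X] R P ∉ w.asIdeal ^ 2

theorem unr_assoc {k : Type} [Field k] {R : Type} [CommRing R] [Algebra k[X] R] {P u : k[X]}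
    (hu : IsUnit u) : Unr R (P * u) ↔ Unr R P := by
  have h : ∀ (I : Ideal R), algebraMap k[X] R (P * u) ∈ I ↔ algebraMap k[X] R P ∈ I := by
    intro I
    rw [map_mul]
    exact Ideal.mul_unit_mem_iff_mem I (hu.map _)
  unfold Unr
  simp only [h]

/-- The theorem with a given field. -/
theorem final_given {g : ℕ} (k : Type) [Field k] [Finite k] (hg : 1 ≤ g)
    (h2 : (2 : k) ≠ 0) (K : Type) [Field K] [Algebra k[X] K] [IsFractionRing k[X] K]
    (M : Type) [Field M] [Algebra K M] [Algebra k[X] M] [IsScalarTower k[X] K M]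
    [FiniteDimensional K M] [IsGalois K M]
    (R : Type) [CommRing R] [IsDedekindDomain R] [Algebra R M] [IsFractionRing R M]
    [Algebra k[X] R] [IsScalarTower k[X] R M] [IsIntegralClosure R k[X] M]
    {m : k[X]} (hm : m ≠ 0) {f₁ : k[X][X]} (hf₁ : f₁.Monic) (hd₁ : f₁.natDegree = 2 * g + 1)
    (hdisc : ∀ P : k[X], Irreducible P → P ∣ m → ¬ P ^ 2 ∣ f₁.discr)
    (hram : ∀ P : k[X], Irreducible P → P ∣ m → Unr R P ∨
      Irreducible (f₁.map (Ideal.Quotient.mk (Ideal.span {P})))) :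
    ∃ S : Finset k[X], (∀ Q ∈ S, Q.Monic ∧ Irreducible Q ∧ ¬ Q ∣ m ∧ SplC R Q) ∧
    ∃ c : ℝ, 0 < c ∧ ∃ N₀ : ℕ, ∀ N ≥ N₀, {f : k[X][X] | HtA g N f}.Finite ∧
    c * ({f : k[X][X] | HtA g N f}.ncard : ℝ) ≤
      ({f : k[X][X] | HtA g N f ∧ MiniA g f ∧ (f.map (algebraMap k[X] K)).Separable ∧
        Irreducible (f.map (algebraMap k[X] K)) ∧ Cg (m ^ 2) f f₁ ∧
        (∀ P : k[X], Irreducible P → Unr R P ∨
          Irreducible (f.map (Ideal.Quotient.mk (Ideal.span {P})))) ∧ Uni K S f f}.ncard : ℝ) := by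
  classical
  obtain ⟨δ, hδ0, hδ⟩ := exists_ram (k := k) (K := K) M R
  let T : Finset k[X] := ((UniqueFactorizationMonoid.normalizedFactors δ).toFinset).filter
    (fun P => ¬ P ∣ m)
  have hTmem : ∀ P : k[X], P ∈ T ↔ P.Monic ∧ Irreducible P ∧ P ∣ δ ∧ ¬ P ∣ m := by
    intro P
    rw [Finset.mem_filter, Multiset.mem_toFinset,
      UniqueFactorizationMonoid.mem_normalizedFactors_iff' hδ0]
    constructor
    · rintro ⟨⟨h1, h2, h3⟩, h4⟩
      refine ⟨?_, h1, h3, h4⟩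
      rw [← h2]
      exact monic_normalize h1.ne_zero
    · rintro ⟨h1, h2, h3, h4⟩
      exact ⟨⟨h2, h1.normalize_eq_self, h3⟩, h4⟩
  have hh : ∀ P : k[X], ∃ h : k[X][X], P.Monic ∧ Irreducible P → h.Monic ∧
      h.natDegree = 2 * g + 1 ∧ Irreducible (h.map (Ideal.Quotient.mk (Ideal.span {P}))) := by
    intro P
    by_cases hP : P.Monic ∧ Irreducible P
    · obtain ⟨h, h1⟩ := Pool.Agent.H859.Tch.exists_hn (2 * g + 1) k (by omega) P hP.1 hP.2
      exact ⟨h, fun _ => h1⟩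
    · exact ⟨0, fun h => absurd h hP⟩
  choose h hh using hh
  obtain ⟨f₂, j1, j2, j3, j4⟩ := crtT (n := 2 * g + 1) (by omega) (a := m ^ 2) hf₁ hd₁ h T
    (fun P hP => by
      obtain ⟨a1, a2, a3, a4⟩ := (hTmem P).1 hP
      have a5 := hh P ⟨a1, a2⟩
      exact ⟨a1, a2, fun hd => a4 (a2.prime.dvd_of_dvd_pow hd), a5.1, a5.2.1⟩)
  have hT0 : (∏ P ∈ T, P) ≠ 0 :=
    Finset.prod_ne_zero_iff.2 fun P hP => ((hTmem P).1 hP).1.ne_zero
  set m₀ : k[X] := m ^ 2 * ∏ P ∈ T, P with hm₀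
  have hm₀0 : m₀ ≠ 0 := mul_ne_zero (pow_ne_zero 2 hm) hT0
  have hbase := goodM_sq hm hf₁ hd₁ hdisc
  have htr : ∀ {b : k[X]} {f x y : k[X][X]}, Cg b f x → Cg b x y → Cg b f y := by
    intro b f x y hx hy j
    have e : f.coeff j - y.coeff j = (f.coeff j - x.coeff j) + (x.coeff j - y.coeff j) := by ring
    rw [e]
    exact dvd_add (hx j) (hy j)
  have hmono : ∀ {b b' : k[X]} {f x : k[X][X]}, b ∣ b' → Cg b' f x → Cg b f x :=
    fun hb hx j => hb.trans (hx j)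
  have hGM : GoodM g m₀ f₂ := by
    refine ⟨hm₀0, j1, j2, fun P hP hPm f hf hfd hcg => ?_⟩
    have hc1 : Cg (m ^ 2) f f₁ := htr (hmono (dvd_mul_right _ _) hcg) j3
    rcases hP.prime.dvd_or_dvd hPm with h1 | h1
    · exact hbase.sq P hP h1 f hf hfd hc1
    · obtain ⟨P', hP', hPP'⟩ := (hP.prime.dvd_finset_prod_iff _).1 h1
      obtain ⟨a1, a2, a3, a4⟩ := (hTmem P').1 hP'
      have hc2 : Cg P' f (h P') :=
        htr (hmono ((Finset.dvd_prod_of_mem _ hP').mul_left _) hcg) (j4 P' hP')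
      have hass : Associated P P' := hP.associated_of_dvd a2 hPP'
      have hi : Irreducible (f.map (Ideal.Quotient.mk (Ideal.span {P'}))) := by
        rw [cg_map hc2]
        exact (hh P' ⟨a1, a2⟩).2.2
      intro hd
      exact dsc_irr a2 hf hfd hi (hass.symm.dvd.trans ((dvd_pow_self P two_ne_zero).trans hd))
  obtain ⟨S, hS, c, hc, N₀, hN₀⟩ := mainQ Pool.Agent.H859.N874.JM.parts
    Pool.Agent.H859.N874.JM.bad k hg h2 K hGM (SplC R)
    (fun a => exists_one_split (K := K) M R m₀ hm₀0 a)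
  refine ⟨S, fun Q hQ => ⟨(hS Q hQ).1, (hS Q hQ).2.1, fun hd => (hS Q hQ).2.2.1
    ((hd.trans (dvd_pow_self m two_ne_zero)).mul_right _), (hS Q hQ).2.2.2⟩, c, hc, N₀,
    fun N hN => ⟨(hN₀ N hN).1, (hN₀ N hN).2.trans ?_⟩⟩
  have hfin : {f : k[X][X] | HtA g N f ∧ MiniA g f ∧ (f.map (algebraMap k[X] K)).Separable ∧
        Irreducible (f.map (algebraMap k[X] K)) ∧ Cg (m ^ 2) f f₁ ∧
        (∀ P : k[X], Irreducible P → Unr R P ∨
          Irreducible (f.map (Ideal.Quotient.mk (Ideal.span {P})))) ∧ Uni K S f f}.Finite :=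
    (hN₀ N hN).1.subset fun f hf => hf.1
  refine Nat.cast_le.2 (Set.ncard_le_ncard ?_ hfin)
  rintro f ⟨a1, a2, a3, a4, a5, a6⟩
  have hc1 : Cg (m ^ 2) f f₁ := htr (hmono (dvd_mul_right _ _) a5) j3
  refine ⟨a1, a2, a3, a4, hc1, fun P hP => ?_, a6⟩
  by_cases hu : Unr R P
  · exact Or.inl hu
  right
  by_cases hPm : P ∣ m
  · have h3 := (hram P hP hPm).resolve_left hu
    rwa [← cg_map (hmono (hPm.trans (dvd_pow_self m two_ne_zero)) hc1)] at h3
  · have hPδ : P ∣ δ := by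
      by_contra hno
      exact hu fun w hw => hδ P hP hno w hw
    have hlu : IsUnit (C P.leadingCoeff⁻¹ : k[X]) :=
      isUnit_C.2 (isUnit_iff_ne_zero.2 (inv_ne_zero (leadingCoeff_ne_zero.2 hP.ne_zero)))
    have hP'm : (P * C P.leadingCoeff⁻¹).Monic := monic_mul_leadingCoeff_inv hP.ne_zero
    have hP'i : Irreducible (P * C P.leadingCoeff⁻¹) := (irreducible_mul_isUnit hlu).2 hP
    have hP'T : P * C P.leadingCoeff⁻¹ ∈ T :=
      (hTmem _).2 ⟨hP'm, hP'i, hlu.mul_right_dvd.2 hPδ, fun hd => hPm (hlu.mul_right_dvd.1 hd)⟩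
    have hc2 : Cg (P * C P.leadingCoeff⁻¹) f (h (P * C P.leadingCoeff⁻¹)) :=
      htr (hmono ((Finset.dvd_prod_of_mem _ hP'T).mul_left _) a5) (j4 _ hP'T)
    have hi : Irreducible (f.map (Ideal.Quotient.mk
        (Ideal.span {P * C P.leadingCoeff⁻¹}))) := by
      rw [cg_map hc2]
      exact (hh _ ⟨hP'm, hP'i⟩).2.2
    have he : Ideal.span {P * C P.leadingCoeff⁻¹} = Ideal.span {P} :=
      Ideal.span_singleton_mul_right_unit hlu P
    rwa [he] at hi

end Pool.Agent.H859.TWC
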