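import Pool.Graph.R_pool_sql_team_seeded_63374d34.N2.PM.Spl
import Pool.Graph.R_pool_sql_team_seeded_63374d34.N169.PM.GEN

/-!
# Infinitely many primes `Q` of `k[X]` with `Q ≡ 1` modulo `m`, by the Carlitz module
-/

set_option autoImplicit false
set_option linter.all false

open Polynomial
open scoped Classical IntermediateField

namespace Pool.Agent.H859.Car

section gen

variable {k : Type} [Field k] [Fintype k] {B : Type} [CommRing B] [Algebra k B]

/-- The operator `b ↦ α b + b ^ q`. -/
noncomputable def phi (α : B) : B →ₗ[k] B :=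
  LinearMap.mulLeft k α + (FiniteField.frobeniusAlgHom k B).toLinearMap

theorem phi_apply (α b : B) : phi (k := k) α b = α * b + b ^ Fintype.card k := rfl

theorem nat_pow {B' : Type} [CommRing B'] [Algebra k B'] (ψ : B →ₐ[k] B') (α : B) (n : ℕ) (b : B) :
    ψ ((phi (k := k) α ^ n) b) = (phi (k := k) (ψ α) ^ n) (ψ b) := by
  induction n with
  | zero => rfl
  | succ n ih =>
    rw [pow_succ', pow_succ', Module.End.mul_apply, Module.End.mul_apply, ← ih, phi_apply,
      phi_apply, map_add, map_mul, map_pow]

theorem naturality {B' : Type} [CommRing B'] [Algebra k B'] (ψ : B →ₐ[k] B') (α : B) (m : k[X])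
    (b : B) : ψ (aeval (phi (k := k) α) m b) = aeval (phi (k := k) (ψ α)) m (ψ b) := by
  rw [aeval_eq_sum_range, aeval_eq_sum_range, LinearMap.sum_apply, LinearMap.sum_apply, map_sum]
  refine Finset.sum_congr rfl fun i _ => ?_
  rw [LinearMap.smul_apply, LinearMap.smul_apply, map_smul, nat_pow]

/-- The polynomial of the action of `m`. -/
noncomputable def CP (α : B) (m : k[X]) : B[X] := aeval (phi (k := k) (C α : B[X])) m X

theorem eval_CP (α b : B) (m : k[X]) : (CP α m).eval b = aeval (phi (k := k) α) m b := by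
  have h := naturality (k := k) ((Polynomial.aeval (R := B) b).restrictScalars k) (C α : B[X]) m X
  rw [AlgHom.restrictScalars_apply, AlgHom.restrictScalars_apply, AlgHom.restrictScalars_apply,
    aeval_C, aeval_X] at h
  rw [← Polynomial.coe_aeval_eq_eval]
  exact h

theorem map_CP {B' : Type} [CommRing B'] [Algebra k B'] (ψ : B →ₐ[k] B') (α : B) (m : k[X]) :
    (CP α m).map (ψ : B →+* B') = CP (ψ α) m := by
  have h := naturality (k := k) (Polynomial.mapAlgHom ψ) (C α : B[X]) m X
  rw [Polynomial.coe_mapAlgHom, map_C, map_X] at h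
  exact h

theorem pow_X [Nontrivial B] (α : B) (n : ℕ) :
    ((phi (k := k) (C α : B[X]) ^ n) X).Monic ∧
      ((phi (k := k) (C α : B[X]) ^ n) X).natDegree = Fintype.card k ^ n := by
  induction n with
  | zero => exact ⟨monic_X, by rw [pow_zero]; exact natDegree_X⟩
  | succ n ih =>
    obtain ⟨h1, h2⟩ := ih
    rw [pow_succ', Module.End.mul_apply, phi_apply, add_comm]
    set y := (phi (k := k) (C α : B[X]) ^ n) X with hy
    have hq : 1 < Fintype.card k := Fintype.one_lt_card
    have h3 : (y ^ Fintype.card k).Monic := h1.pow _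
    have h4 : (y ^ Fintype.card k).natDegree = Fintype.card k ^ (n + 1) := by
      rw [h1.natDegree_pow, h2, pow_succ']
    have h5 : (C α * y).degree < (y ^ Fintype.card k).degree := by
      apply degree_lt_degree
      rw [h4]
      refine (natDegree_C_mul_le _ _).trans_lt ?_
      rw [h2]
      exact Nat.pow_lt_pow_right hq (Nat.lt_succ_self n)
    exact ⟨h3.add_of_left h5, by rw [natDegree_add_eq_left_of_degree_lt h5, h4]⟩

theorem CP_eq (α : B) (m : k[X]) : CP α m = ∑ i ∈ Finset.range (m.natDegree + 1),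
    m.coeff i • (phi (k := k) (C α : B[X]) ^ i) X := by
  unfold CP
  rw [aeval_eq_sum_range, LinearMap.sum_apply]
  exact Finset.sum_congr rfl fun i _ => LinearMap.smul_apply _ _ _

theorem CP_deg [Nontrivial B] (α : B) (m : k[X]) :
    (CP α m).natDegree ≤ Fintype.card k ^ m.natDegree := by
  rw [CP_eq]
  refine natDegree_sum_le_of_forall_le _ _ fun i hi => ?_
  refine (natDegree_smul_le _ _).trans ?_
  rw [(pow_X α i).2]
  exact Nat.pow_le_pow_right Fintype.card_pos (Nat.lt_succ_iff.1 (Finset.mem_range.1 hi))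

theorem CP_lc [Nontrivial B] (α : B) (m : k[X]) :
    (CP α m).coeff (Fintype.card k ^ m.natDegree) = algebraMap k B m.leadingCoeff := by
  rw [CP_eq, finset_sum_coeff, Finset.sum_range_succ, Finset.sum_eq_zero, zero_add, coeff_smul]
  · have h := (pow_X (k := k) α m.natDegree).1
    have h2 := (pow_X (k := k) α m.natDegree).2
    rw [← h2]
    have h3 : ((phi (k := k) (C α : B[X]) ^ m.natDegree) X).coeff
        ((phi (k := k) (C α : B[X]) ^ m.natDegree) X).natDegree = 1 := h
    rw [h3, Algebra.smul_def, mul_one]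
    rfl
  · intro i hi
    have h : ((phi (k := k) (C α : B[X]) ^ i) X).coeff (Fintype.card k ^ m.natDegree) = 0 := by
      apply coeff_eq_zero_of_natDegree_lt
      rw [(pow_X α i).2]
      exact Nat.pow_lt_pow_right Fintype.one_lt_card (Finset.mem_range.1 hi)
    rw [coeff_smul, h, smul_zero]

theorem CP_monic [Nontrivial B] (α : B) {m : k[X]} (hm : m.Monic) : (CP α m).Monic := by
  apply monic_of_natDegree_le_of_coeff_eq_one _ (CP_deg α m)
  rw [CP_lc, hm.leadingCoeff, map_one]

theorem CP_natDegree [Nontrivial B] (α : B) {m : k[X]} (hm : m ≠ 0) :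
    (CP α m).natDegree = Fintype.card k ^ m.natDegree := by
  refine le_antisymm (CP_deg α m) (le_natDegree_of_ne_zero ?_)
  rw [CP_lc]
  intro h0
  apply hm
  rw [← leadingCoeff_eq_zero]
  exact (algebraMap k B).injective (by rw [h0, map_zero])

theorem card_zero : ((Fintype.card k : ℕ) : B) = 0 := by
  have h : ((Fintype.card k : ℕ) : k) = 0 := FiniteField.cast_card_eq_zero k
  rw [← map_natCast (algebraMap k B), h, map_zero]

theorem der_pow (α : B) (n : ℕ) :
    derivative ((phi (k := k) (C α : B[X]) ^ n) X) = C (α ^ n) := by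
  induction n with
  | zero => rw [pow_zero, pow_zero, C_1]; exact derivative_X
  | succ n ih =>
    rw [pow_succ', Module.End.mul_apply, phi_apply, derivative_add, derivative_mul, derivative_C,
      zero_mul, zero_add, ih, derivative_pow, card_zero (k := k) (B := B), C_0, zero_mul, zero_mul,
      add_zero, ← C_mul, pow_succ']

theorem der_CP (α : B) (m : k[X]) : derivative (CP α m) = C (aeval α m) := by
  rw [CP_eq, derivative_sum, aeval_eq_sum_range, map_sum]
  refine Finset.sum_congr rfl fun i _ => ?_
  rw [derivative_smul, der_pow, smul_C]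

/-- the additive polynomials -/
noncomputable def LS (k : Type) [Fintype k] (B : Type) [CommRing B] : Submodule B B[X] :=
  Submodule.span B (Set.range fun i : ℕ => (X : B[X]) ^ Fintype.card k ^ i)

theorem ls_pow {p : B[X]} (hp : p ∈ LS k B) : p ^ Fintype.card k ∈ LS k B := by
  have hadd : ∀ x y : B[X], (x + y) ^ Fintype.card k = x ^ Fintype.card k + y ^ Fintype.card k :=
    fun x y => map_add (FiniteField.frobeniusAlgHom k B[X]) x y
  induction hp using Submodule.span_induction with
  | mem x hx =>
    obtain ⟨i, rfl⟩ := hx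
    apply Submodule.subset_span
    refine ⟨i + 1, ?_⟩
    show (X : B[X]) ^ Fintype.card k ^ (i + 1) = (X ^ Fintype.card k ^ i) ^ Fintype.card k
    rw [pow_succ, pow_mul]
  | zero => rw [zero_pow Fintype.card_ne_zero]; exact zero_mem _
  | add x y _ _ hx hy => rw [hadd]; exact add_mem hx hy
  | smul a x _ hx => rw [_root_.smul_pow]; exact Submodule.smul_mem _ _ hx

theorem ls_phi (α : B) (n : ℕ) : (phi (k := k) (C α : B[X]) ^ n) X ∈ LS k B := by
  induction n with
  | zero =>
    apply Submodule.subset_span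
    exact ⟨0, by simp⟩
  | succ n ih =>
    rw [pow_succ', Module.End.mul_apply, phi_apply, ← smul_eq_C_mul]
    exact add_mem (Submodule.smul_mem _ _ ih) (ls_pow ih)

theorem ls_CP (α : B) (m : k[X]) : CP α m ∈ LS k B := by
  rw [CP_eq]
  refine sum_mem fun i _ => ?_
  rw [Algebra.smul_def, IsScalarTower.algebraMap_apply k B B[X], ← Algebra.smul_def]
  exact Submodule.smul_mem _ _ (ls_phi α i)

theorem ls_coeff {p : B[X]} (hp : p ∈ LS k B) {n : ℕ} (hn : p.coeff n ≠ 0) :
    ∃ i, n = Fintype.card k ^ i := by
  by_contra hcon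
  apply hn
  clear hn
  induction hp using Submodule.span_induction with
  | mem x hx =>
    obtain ⟨i, rfl⟩ := hx
    dsimp only
    rw [coeff_X_pow, if_neg]
    intro h
    exact hcon ⟨i, h⟩
  | zero => rfl
  | add x y _ _ hx hy => rw [coeff_add, hx, hy, add_zero]
  | smul a x _ hx => rw [coeff_smul, hx, smul_zero]

/-- commutation -/
theorem comm_CP (α : B) (m : k[X]) :
    (CP α m).comp (C α * X + X ^ Fintype.card k) =
      C α * CP α m + CP α m ^ Fintype.card k := by
  have h := naturality (k := k)
    ((Polynomial.aeval (R := B) (C α * X + X ^ Fintype.card k : B[X])).restrictScalars k)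
    (C α : B[X]) m X
  rw [AlgHom.restrictScalars_apply, AlgHom.restrictScalars_apply, AlgHom.restrictScalars_apply,
    aeval_C, aeval_X] at h
  have h2 : (CP α m).comp (C α * X + X ^ Fintype.card k) =
      (Polynomial.aeval (R := B) (C α * X + X ^ Fintype.card k : B[X])) (CP α m) := by
    rw [comp_eq_aeval]
  rw [h2]
  refine h.trans ?_
  have h3 : (C α * X + X ^ Fintype.card k : B[X]) = phi (k := k) (C α : B[X]) X := rfl
  have h4 : (algebraMap B B[X]) α = C α := rfl
  rw [h3, h4, ← Module.End.mul_apply]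
  have h5 : aeval (phi (k := k) (C α : B[X])) m * phi (k := k) (C α : B[X]) =
      phi (k := k) (C α : B[X]) * aeval (phi (k := k) (C α : B[X])) m := by
    have e1 : aeval (phi (k := k) (C α : B[X])) (m * X) =
        aeval (phi (k := k) (C α : B[X])) m * phi (k := k) (C α : B[X]) := by
      rw [map_mul, aeval_X]
    have e2 : aeval (phi (k := k) (C α : B[X])) (X * m) =
        phi (k := k) (C α : B[X]) * aeval (phi (k := k) (C α : B[X])) m := by
      rw [map_mul, aeval_X]
    rw [← e1, ← e2, mul_comm]
  rw [h5, Module.End.mul_apply, phi_apply]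
  rfl

end gen

section field

variable {k : Type} [Field k] [Fintype k] {Q : k[X]} [Fact (Irreducible Q)]

theorem fin_adj : Module.Finite k (AdjoinRoot Q) :=
  (AdjoinRoot.powerBasis (Fact.out : Irreducible Q).ne_zero).finite

/-- the generator is not fixed by a small power of the Frobenius automorphism -/
theorem root_pow {i : ℕ} (h1 : 1 ≤ i) (h2 : i < Q.natDegree) :
    (AdjoinRoot.root Q) ^ Fintype.card k ^ i ≠ AdjoinRoot.root Q := by
  haveI : Module.Finite k (AdjoinRoot Q) := fin_adj
  haveI : Finite (AdjoinRoot Q) := Module.finite_of_finite k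
  intro h
  have h3 : (FiniteField.frobeniusAlgHom k (AdjoinRoot Q)) ^ i = 1 := by
    apply AdjoinRoot.algHom_ext
    rw [AlgHom.coe_pow, FiniteField.coe_frobeniusAlgHom, pow_iterate, AlgHom.one_apply]
    exact h
  have h4 := FiniteField.orderOf_frobeniusAlgHom k (AdjoinRoot Q)
  have h5 := orderOf_dvd_of_pow_eq_one h3
  rw [h4, (AdjoinRoot.powerBasis (Fact.out : Irreducible Q).ne_zero).finrank,
    AdjoinRoot.powerBasis_dim] at h5
  exact absurd (Nat.le_of_dvd (by omega) h5) (by omega)

/-- `Q` acts as the identity on the Carlitz module modulo `Q`. -/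
theorem CP_self (hQ : Q.Monic) :
    CP (AdjoinRoot.root Q) Q = X ^ Fintype.card k ^ Q.natDegree := by
  haveI : Module.Finite k (AdjoinRoot Q) := fin_adj
  haveI : Finite (AdjoinRoot Q) := Module.finite_of_finite k
  haveI : Fintype (AdjoinRoot Q) := Fintype.ofFinite _
  have hQi : Irreducible Q := Fact.out
  have hcard : Fintype.card (AdjoinRoot Q) = Fintype.card k ^ Q.natDegree := by
    rw [Module.card_eq_pow_finrank (K := k) (V := AdjoinRoot Q),
      (AdjoinRoot.powerBasis hQi.ne_zero).finrank, AdjoinRoot.powerBasis_dim]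
  set α := AdjoinRoot.root Q with hα
  set q := Fintype.card k with hq
  have hq1 : 1 < q := Fintype.one_lt_card
  set d := Q.natDegree with hd
  set r := CP α Q - X ^ q ^ d with hr
  have hls : r ∈ LS k (AdjoinRoot Q) := sub_mem (ls_CP α Q) (Submodule.subset_span ⟨d, rfl⟩)
  by_contra hne
  have hr0 : r ≠ 0 := sub_ne_zero.2 hne
  -- the degree
  have hmon := CP_monic α hQ
  have hdeg : r.natDegree < q ^ d := by
    have h1 : r.degree < (CP α Q).degree := by
      apply degree_sub_lt
      · rw [degree_X_pow, degree_eq_natDegree hmon.ne_zero, CP_natDegree α hQi.ne_zero]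
      · exact hmon.ne_zero
      · rw [hmon.leadingCoeff, (monic_X_pow _).leadingCoeff]
    rw [← CP_natDegree α hQi.ne_zero]
    exact natDegree_lt_natDegree hr0 h1
  -- the linear term
  have hlin : r.coeff 1 = 0 := by
    have h1 : (derivative (CP α Q)).coeff 0 = 0 := by
      rw [der_CP, coeff_C_zero, hα, aeval_def, AdjoinRoot.algebraMap_eq]
      exact AdjoinRoot.eval₂_root Q
    rw [coeff_derivative] at h1
    have h2 : (CP α Q).coeff 1 = 0 := by simpa using h1
    rw [hr, coeff_sub, h2, coeff_X_pow, if_neg, sub_zero]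
    have h3 : 1 < q ^ d := Nat.one_lt_pow hQi.natDegree_pos.ne' hq1
    omega
  -- the trailing term
  obtain ⟨i, hi⟩ := ls_coeff hls (n := r.natTrailingDegree) (by
    rw [← Polynomial.trailingCoeff]
    exact trailingCoeff_nonzero_iff_nonzero.2 hr0)
  have htc : r.coeff r.natTrailingDegree ≠ 0 := trailingCoeff_nonzero_iff_nonzero.2 hr0
  have hi0 : 1 ≤ i := by
    rcases Nat.eq_zero_or_pos i with h0 | h0
    · rw [h0, pow_zero] at hi
      rw [hi] at htc
      exact absurd hlin htc
    · exact h0
  have hid : i < d := by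
    have h1 : r.natTrailingDegree < q ^ d := (natTrailingDegree_le_natDegree r).trans_lt hdeg
    rw [hi] at h1
    exact (Nat.pow_lt_pow_iff_right hq1).1 h1
  set s := r.natTrailingDegree with hs
  have hs1 : 1 ≤ s := by rw [hi]; exact Nat.one_le_pow _ _ (by omega)
  -- commutation
  have hcomm : r.comp (C α * X + X ^ q) = C α * r + r ^ q := by
    have h1 := comm_CP α Q
    have hfr : ∀ x y : (AdjoinRoot Q)[X], (x - y) ^ q = x ^ q - y ^ q :=
      fun x y => map_sub (FiniteField.frobeniusAlgHom k (AdjoinRoot Q)[X]) x y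
    have hfr2 : ∀ (n : ℕ) (x y : (AdjoinRoot Q)[X]), (x + y) ^ q ^ n = x ^ q ^ n + y ^ q ^ n := by
      intro n x y
      induction n with
      | zero => rw [pow_zero, pow_one, pow_one, pow_one]
      | succ n ih =>
        rw [pow_succ, pow_mul, ih, pow_mul, pow_mul]
        exact map_add (FiniteField.frobeniusAlgHom k (AdjoinRoot Q)[X]) _ _
    have h2 : α ^ q ^ d = α := by
      rw [← hcard]
      exact FiniteField.pow_card α
    rw [hr, sub_comp, h1, hfr, pow_comp, X_comp, hfr2, mul_pow, ← C_pow, h2, ← pow_mul, ← pow_mul,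
      mul_comm q]
    ring
  have hc : (r.comp (C α * X + X ^ q)).coeff s = (C α * r + r ^ q).coeff s := by rw [hcomm]
  obtain ⟨r', hr'⟩ : ∃ r', r = X ^ s * r' := X_pow_dvd_iff.2 fun d hd =>
    coeff_eq_zero_of_lt_natTrailingDegree hd
  have hr's : r'.coeff 0 = r.coeff s := by
    have h1 : (X ^ s * r').coeff (0 + s) = r'.coeff 0 := coeff_X_pow_mul r' s 0
    rw [zero_add, ← hr'] at h1
    exact h1.symm
  have hL : (r.comp (C α * X + X ^ q)).coeff s = α ^ s * r.coeff s := by
    have e : (C α * X + X ^ q : (AdjoinRoot Q)[X]) = X * (C α + X ^ (q - 1)) := by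
      obtain ⟨n, hn⟩ : ∃ n, q = n + 2 := ⟨q - 2, by omega⟩
      rw [hn, show n + 2 - 1 = n + 1 by omega]
      ring
    conv_lhs => rw [hr', mul_comp, pow_comp, X_comp, e, mul_pow, mul_assoc]
    have h1 := coeff_X_pow_mul ((C α + X ^ (q - 1)) ^ s * r'.comp (X * (C α + X ^ (q - 1)))) s 0
    rw [zero_add] at h1
    rw [h1, mul_coeff_zero, ← hr's, coeff_zero_eq_eval_zero, coeff_zero_eq_eval_zero,
      coeff_zero_eq_eval_zero, eval_comp]
    simp only [eval_pow, eval_add, eval_mul, eval_X, eval_C, zero_mul]
    rw [zero_pow (by omega : q - 1 ≠ 0), add_zero]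
  have hR : (C α * r + r ^ q).coeff s = α * r.coeff s := by
    rw [coeff_add, coeff_C_mul]
    have h1 : (r ^ q).coeff s = 0 := by
      have h2 : r ^ q = X ^ (s * q) * r' ^ q := by rw [hr', mul_pow, ← pow_mul]
      rw [h2, coeff_X_pow_mul', if_neg]
      have : s * 1 < s * q := Nat.mul_lt_mul_of_pos_left hq1 hs1
      omega
    rw [h1, add_zero]
  rw [hL, hR] at hc
  have hfin := mul_right_cancel₀ htc hc
  rw [hi] at hfin
  exact root_pow hi0 hid hfin

end field

end Pool.Agent.H859.Car
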