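import Pool.Agent.H859.SC.DA8
import Pool.Agent.H859.TWC.Lpw

/-!
# The sieve in an arbitrary residue class
-/

set_option autoImplicit false
set_option linter.all false

open Polynomial
open scoped Classical

namespace Pool.Agent.H859.TWC

open Pool.Agent.H859.PJ Pool.Agent.H859.DA
open Pool.Agent.N352.PJ (Cg dsc)
open Pool.Agent.N874.PP (nm)
open Pool.Agent.N490.PP.Fam (Irr Irr_finite Irr_le exists_monic q_pos lt_finite)
open Pool.Agent.N615.JM (coprime_of_ne crt2 crtU prod_sqf mem_of_dvd nm_mul nm_pow nm_prod nm_pos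
  map_cg geom)

/-- The family in the residue class of `F₁` modulo `m`. -/
structure FamM (g : ℕ) {k : Type} [Field k] (N : ℕ) (r : k[X]) (S : Finset k[X])
    (h : k[X] → k[X][X]) (m : k[X]) (F₁ : k[X][X]) (f : k[X][X]) : Prop where
  fam : FamA g N r S h f
  con : Cg m f F₁

/-- `m` is not zero and the discriminants of the members of the residue class of `F₁` modulo `m` are
not divisible by the square of a prime divisor of `m`. -/
structure GoodM (g : ℕ) {k : Type} [Field k] (m : k[X]) (F₁ : k[X][X]) : Prop where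
  ne : m ≠ 0
  mon : F₁.Monic
  deg : F₁.natDegree = 2 * g + 1
  sq : ∀ P : k[X], Irreducible P → P ∣ m → ∀ f : k[X][X], f.Monic → f.natDegree = 2 * g + 1 →
    Cg m f F₁ → ¬ P ^ 2 ∣ dsc g f

section poly

variable {k : Type} [Field k] {g : ℕ} [Finite k]

/-- the family is finite -/
theorem famM_fin (hBX : S_BXA) {N : ℕ} {r : k[X]} {S : Finset k[X]} {h : k[X] → k[X][X]}
    {m : k[X]} {F₁ : k[X][X]} : {f : k[X][X] | FamM g N r S h m F₁ f}.Finite := by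
  refine (((hBX g k N r 1 (fun _ => 0) one_ne_zero (by simp)).1).image polA).subset ?_
  intro f hf
  refine ⟨fun j => f.coeff j, fun j => ⟨?_, ?_, one_dvd _⟩, ?_⟩
  · exact hf.fam.ht.ht j (by have := j.2; omega)
  · exact hf.fam.inf j (by have := j.2; omega)
  · exact polA_eq hf.fam.ht.mon hf.fam.ht.deg

/-- the core: all the small primes divide `m` or are in `S ∪ T` -/
theorem coreM {K : ℕ} (hLD : ∀ P : k[X], Irreducible P →
    {a : Fin (2 * g + 1) → k[X] | (∀ j, (a j).degree < 2 * P.natDegree) ∧ P ^ 2 ∣ disA a}.ncard *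
      nm P ^ 2 ≤ K * nm P ^ (4 * g + 2)) (hBX : S_BXA) (hLP : S_LPW) (hg : 1 ≤ g)
    (h2 : (2 : k) ≠ 0) {D : ℕ} (hD : 4 * K ≤ Nat.card k ^ D) {r : k[X]}
    (S : Finset k[X]) (h : k[X] → k[X][X]) (hS : GoodSA g S h)
    (T : Finset k[X]) (A : k[X] → k[X][X]) (hT : GoodTA g T A) (hdis : Disjoint S T)
    {m : k[X]} {F₁ : k[X][X]} (hM : GoodM g m F₁) (hSm : ∀ Q ∈ S ∪ T, ¬ Q ∣ m)
    (hsm : ∀ P : k[X], P.Monic → Irreducible P → P.natDegree ≤ D → P ∣ m ∨ P ∈ S ∪ T) :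
    ∃ N₀ : ℕ, ∀ N ≥ N₀, (Nat.card k : ℝ) ^ (2 * N * ddA g) ≤
      2 * ((nm m ^ (2 * g + 1) * ∏ Q ∈ S ∪ T, nm Q ^ (2 * g + 1) : ℕ) : ℝ) *
        ({f : k[X][X] | FamM g N r S h m F₁ f}.ncard : ℝ) := by
  have hU : ∀ Q ∈ S ∪ T, Q.Monic ∧ Irreducible Q := by
    intro Q hQ
    rcases Finset.mem_union.1 hQ with hQ | hQ
    · exact ⟨(hS Q hQ).1, (hS Q hQ).2.1⟩
    · exact ⟨(hT Q hQ).1, (hT Q hQ).2.1⟩
  set W₁ : k[X] := ∏ Q ∈ S ∪ T, Q with hW₁def
  have hWm : W₁.Monic := monic_prod_of_monic _ _ fun Q hQ => (hU Q hQ).1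
  have hW₁0 : W₁ ≠ 0 := hWm.ne_zero
  have hcop : IsCoprime m W₁ := by
    rw [hW₁def]
    refine IsCoprime.prod_right fun Q hQ => ?_
    exact ((hU Q hQ).2.coprime_iff_not_dvd.2 (hSm Q hQ)).symm
  set W : k[X] := m * W₁ with hWdef
  have hW0 : W ≠ 0 := mul_ne_zero hM.ne hW₁0
  have hnW : nm W ^ (2 * g + 1) = nm m ^ (2 * g + 1) * ∏ Q ∈ S ∪ T, nm Q ^ (2 * g + 1) := by
    rw [hWdef, nm_mul hM.ne hW₁0, mul_pow, hW₁def, nm_prod _ fun Q hQ => (hU Q hQ).1,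
      Finset.prod_pow]
  -- the polynomial prescribed at `Q`
  set F : k[X] → k[X][X] := fun Q => if Q ∈ S then X * h Q else A Q with hF
  have hFS : ∀ Q ∈ S, F Q = X * h Q := fun Q hQ => if_pos hQ
  have hFT : ∀ Q ∈ T, F Q = A Q := fun Q hQ =>
    if_neg (fun h' => (Finset.disjoint_left.1 hdis h') hQ)
  have hFp : ∀ Q ∈ S ∪ T, (F Q).Monic ∧ (F Q).natDegree = 2 * g + 1 ∧
      ((F Q).map (Ideal.Quotient.mk (Ideal.span {Q}))).Separable := by
    intro Q hQ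
    rcases Finset.mem_union.1 hQ with hQ | hQ
    · obtain ⟨h1, h2, h3, h4, h5, h6⟩ := hS Q hQ
      rw [hFS Q hQ]
      refine ⟨monic_X.mul h3, ?_, sepSA h2 hg h3 h4 h6⟩
      rw [monic_X.natDegree_mul h3, natDegree_X, h4]; ring
    · obtain ⟨h1, h2, h3, h4, h5, h6⟩ := hT Q hQ
      rw [hFT Q hQ]
      exact ⟨h3, h4, sepTA h2 h6⟩
  obtain ⟨A₁, hA₁⟩ := crtU (ι := Fin (2 * g + 1)) (S ∪ T) hU fun Q j => (F Q).coeff j
  obtain ⟨A', hA'm, hA'W⟩ := crt2 (ι := Fin (2 * g + 1)) hcop (fun j => F₁.coeff j) A₁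
  have hA' : ∀ Q ∈ S ∪ T, ∀ j, Q ∣ A' j - (F Q).coeff j := by
    intro Q hQ j
    have h1 : Q ∣ A' j - A₁ j := (Finset.dvd_prod_of_mem (fun Q => Q) hQ).trans (hA'W j)
    have h2 := dvd_add h1 (hA₁ Q hQ j)
    rwa [sub_add_sub_cancel] at h2
  obtain ⟨N₁, hN₁⟩ := hLP g k hg h2 r W A' hW0 (1 / 4) (by norm_num)
  refine ⟨max N₁ (W.natDegree), fun N hN => ?_⟩
  have hNa : N₁ ≤ N := (le_max_left _ _).trans hN
  have hNb : W.natDegree ≤ N := (le_max_right _ _).trans hN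
  have hBfin := (hBX g k N r W A' hW0 (by omega)).1
  have hBcard := (hBX g k N r W A' hW0 (by omega)).2
  have hbig := hN₁ N hNa
  have hmid := mid_primesA hLD hBX (r := r) (N := N) A' hW0 hNb hD
  set B := BxA g N r W A' with hB
  set X1 : Set (Fin (2 * g + 1) → k[X]) := {a ∈ B | ∃ P : k[X], P.Monic ∧ Irreducible P ∧
    D < P.natDegree ∧ P.natDegree ≤ N / 2 ∧ ¬ P ∣ W ∧ P ^ 2 ∣ disA a} with hX1
  set X2 : Set (Fin (2 * g + 1) → k[X]) := {a ∈ B | ∃ P : k[X], Irreducible P ∧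
    N / 2 < P.natDegree ∧ ¬ P ∣ W ∧ P ^ 2 ∣ disA a} with hX2
  have hcg : ∀ a ∈ B, ∀ Q ∈ S ∪ T, Cg Q (polA a) (F Q) := by
    intro a ha Q hQ
    obtain ⟨h1, h2, _⟩ := hFp Q hQ
    apply cgA_of h1 h2
    intro j
    have h4 : Q ∣ a j - A' j :=
      ((Finset.dvd_prod_of_mem (fun Q => Q) hQ).trans (dvd_mul_left W₁ m)).trans (ha j).2.2
    have h5 := dvd_add h4 (hA' Q hQ j)
    rwa [sub_add_sub_cancel] at h5
  have hcm : ∀ a ∈ B, Cg m (polA a) F₁ := by
    intro a ha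
    apply cgA_of hM.mon hM.deg
    intro j
    have h4 : m ∣ a j - A' j := (dvd_mul_right m W₁).trans (ha j).2.2
    have h5 := dvd_add h4 (hA'm j)
    rwa [sub_add_sub_cancel] at h5
  have hgood : ∀ a ∈ B, a ∉ X1 → a ∉ X2 → FamM g N r S h m F₁ (polA a) := by
    intro a ha hx1 hx2
    refine ⟨⟨⟨polA_monic a, polA_deg a, ?_⟩, ?_, ?_, ?_⟩, hcm a ha⟩
    · intro j hj
      have h1 : j < 2 * g + 1 := by omega
      have := (ha ⟨j, h1⟩).1
      rw [polA_coeff, if_neg (by omega), dif_pos h1]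
      exact this
    · intro j hj
      have h1 : j < 2 * g + 1 := by omega
      have := (ha ⟨j, h1⟩).2.1
      rw [polA_coeff, if_neg (by omega), dif_pos h1]
      exact this
    · intro Q hQ
      rw [← hFS Q hQ]
      exact hcg a ha Q (Finset.mem_union_left _ hQ)
    · have hno : ∀ P : k[X], Irreducible P → ¬ P * P ∣ disA a := by
        intro P hP hd
        obtain ⟨π, h1, h2, h3⟩ := exists_monic hP
        have hd2 : π ^ 2 ∣ disA a := by
          rw [pow_two]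
          exact (mul_dvd_mul h3.dvd h3.dvd).trans hd
        have hπm : ¬ π ∣ m := fun hπ =>
          hM.sq π h2 hπ (polA a) (polA_monic a) (polA_deg a) (hcm a ha) (by
            have e : dsc g (polA a) = disA a := rfl
            rw [e]; exact hd2)
        have hnW' : ¬ π ∣ W := by
          intro hπ
          rcases h2.prime.dvd_or_dvd hπ with hπ | hπ
          · exact hπm hπ
          have hmem := mem_of_dvd _ hU h1 h2 hπ
          have h4 := hcg a ha π hmem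
          have h5 := (hFp π hmem).2.2
          rw [← map_cg h4] at h5
          exact not_dvdA h2 h5 ((dvd_pow_self π two_ne_zero).trans hd2)
        have hD' : D < π.natDegree := by
          by_contra hc
          rcases hsm π h1 h2 (not_lt.1 hc) with h6 | h6
          · exact hπm h6
          · exact hnW' ((Finset.dvd_prod_of_mem (fun Q => Q) h6).trans (dvd_mul_left W₁ m))
        rcases Nat.lt_or_ge (N / 2) π.natDegree with h4 | h4
        · exact hx2 ⟨ha, π, h2, h4, hnW', hd2⟩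
        · exact hx1 ⟨ha, π, h1, h2, hD', h4, hnW', hd2⟩
      show Squarefree (disA a)
      rcases (irreducible_sq_not_dvd_iff_eq_zero_and_no_irreducibles_or_squarefree (disA a)).1 hno
        with h1 | h1
      · exact absurd irreducible_X (h1.2 X)
      · exact h1
  have hc1 : (B \ (X1 ∪ X2)).ncard ≤ {f : k[X][X] | FamM g N r S h m F₁ f}.ncard := by
    apply Set.ncard_le_ncard_of_injOn polA _ _ (famM_fin hBX)
    · intro a ha
      exact hgood a ha.1 (fun h' => ha.2 (Or.inl h')) (fun h' => ha.2 (Or.inr h'))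
    · intro a _ b _ hab
      exact polA_inj hab
  have hX1f : X1.Finite := hBfin.subset fun _ h' => h'.1
  have hX2f : X2.Finite := hBfin.subset fun _ h' => h'.1
  have hc2 : B.ncard ≤ (B \ (X1 ∪ X2)).ncard + (X1.ncard + X2.ncard) := by
    have h1 := Set.ncard_le_ncard_sdiff_add_ncard B (X1 ∪ X2) (hX1f.union hX2f)
    have h2 := Set.ncard_union_le X1 X2
    omega
  have hc3 : (B.ncard : ℝ) ≤ 2 * ({f : k[X][X] | FamM g N r S h m F₁ f}.ncard : ℝ) := by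
    have h1 : (B.ncard : ℝ) ≤ ((B \ (X1 ∪ X2)).ncard : ℝ) + (X1.ncard + X2.ncard) := by
      exact_mod_cast hc2
    have h2 : ((B \ (X1 ∪ X2)).ncard : ℝ) ≤
        ({f : k[X][X] | FamM g N r S h m F₁ f}.ncard : ℝ) := by exact_mod_cast hc1
    linarith
  have hc4 : (Nat.card k : ℝ) ^ (2 * N * ddA g) = (B.ncard : ℝ) *
      ((nm m ^ (2 * g + 1) * ∏ Q ∈ S ∪ T, nm Q ^ (2 * g + 1) : ℕ) : ℝ) := by
    rw [← hnW]
    exact_mod_cast hBcard.symm
  rw [hc4]
  have hpos : (0 : ℝ) ≤ ((nm m ^ (2 * g + 1) * ∏ Q ∈ S ∪ T, nm Q ^ (2 * g + 1) : ℕ) : ℝ) :=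
    Nat.cast_nonneg _
  nlinarith [mul_le_mul_of_nonneg_right hc3 hpos]

/-- **Many members of the family in the residue class; the constant does not depend on `S`.** -/
theorem famM (hg : 1 ≤ g) (h2 : (2 : k) ≠ 0) (r : k[X]) {m : k[X]}
    {F₁ : k[X][X]} (hM : GoodM g m F₁) :
    ∃ c : ℝ, 0 < c ∧ ∀ (S : Finset k[X]) (h : k[X] → k[X][X]), GoodSA g S h →
      (∀ Q ∈ S, ¬ Q ∣ m) → ∃ N₀ : ℕ, ∀ N ≥ N₀,
      c * (Nat.card k : ℝ) ^ (2 * N * ddA g) ≤ ((∏ Q ∈ S, nm Q ^ (2 * g + 1) : ℕ) : ℝ) *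
        ({f : k[X][X] | FamM g N r S h m F₁ f}.ncard : ℝ) := by
  obtain ⟨K, hK⟩ := ldA g k hg h2
  obtain ⟨D, hD⟩ : ∃ D : ℕ, 4 * K ≤ Nat.card k ^ D :=
    ⟨4 * K, (Nat.lt_pow_self (q_pos (k := k))).le⟩
  -- the small primes
  have hfin : {P : k[X] | (P.Monic ∧ Irreducible P ∧ P.natDegree ≤ D) ∧ ¬ P ∣ m}.Finite := by
    have h1 : {P : k[X] | (P.Monic ∧ Irreducible P ∧ P.natDegree ≤ D) ∧ ¬ P ∣ m} ⊆
        ⋃ d ∈ Finset.range (D + 1), Irr k d := by
      rintro P ⟨⟨h1, h2, h3⟩, -⟩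
      rw [Set.mem_iUnion₂]
      exact ⟨P.natDegree, Finset.mem_range.2 (by omega), h1, h2, rfl⟩
    exact (Set.Finite.biUnion (Finset.finite_toSet _) fun d _ => Irr_finite d).subset h1
  set Sm : Finset k[X] := hfin.toFinset with hSm
  have hSmp : ∀ P ∈ Sm, P.Monic ∧ Irreducible P := by
    intro P hP
    have := hfin.mem_toFinset.1 hP
    exact ⟨this.1.1, this.1.2.1⟩
  obtain ⟨A0, hA0⟩ := (Pool.Agent.H859.Tch.tch g k hg Sm hSmp).1
  set cc : ℕ := nm m ^ (2 * g + 1) * ∏ P ∈ Sm, nm P ^ (2 * g + 1) with hcc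
  have hccpos : 0 < cc := Nat.mul_pos (pow_pos (nm_pos m) _)
    (Finset.prod_pos fun P _ => pow_pos (nm_pos P) _)
  refine ⟨1 / (2 * cc), by positivity, fun S h hS hSm' => ?_⟩
  set T' : Finset k[X] := Sm \ S with hT'
  have hGT : GoodTA g T' A0 := fun P hP => hA0 P (Finset.mem_sdiff.1 hP).1
  have hdis' : Disjoint S T' := Finset.disjoint_sdiff
  have hsm : ∀ P : k[X], P.Monic → Irreducible P → P.natDegree ≤ D → P ∣ m ∨ P ∈ S ∪ T' := by
    intro P h1 h2 h3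
    by_cases hPm : P ∣ m
    · exact Or.inl hPm
    right
    by_cases hPS : P ∈ S
    · exact Finset.mem_union_left _ hPS
    · apply Finset.mem_union_right
      exact Finset.mem_sdiff.2 ⟨hfin.mem_toFinset.2 ⟨⟨h1, h2, h3⟩, hPm⟩, hPS⟩
  have hSTm : ∀ Q ∈ S ∪ T', ¬ Q ∣ m := by
    intro Q hQ
    rcases Finset.mem_union.1 hQ with hQ | hQ
    · exact hSm' Q hQ
    · exact (hfin.mem_toFinset.1 (Finset.mem_sdiff.1 hQ).1).2
  obtain ⟨N₀, hN₀⟩ := coreM hK bxA lpW hg h2 hD (r := r) S h hS T' A0 hGT hdis' hM hSTm hsm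
  refine ⟨N₀, fun N hN => ?_⟩
  have h1 := hN₀ N hN
  have h3 : nm m ^ (2 * g + 1) * ∏ Q ∈ S ∪ T', nm Q ^ (2 * g + 1) ≤
      (∏ Q ∈ S, nm Q ^ (2 * g + 1)) * cc := by
    rw [Finset.prod_union hdis', hcc, mul_left_comm]
    apply Nat.mul_le_mul_left
    apply Nat.mul_le_mul_left
    apply Finset.prod_le_prod_of_subset_of_one_le'
    · exact Finset.sdiff_subset
    · intro P _ _
      exact Nat.one_le_pow _ _ (nm_pos P)
  have h4 : (Nat.card k : ℝ) ^ (2 * N * ddA g) ≤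
      2 * (((∏ Q ∈ S, nm Q ^ (2 * g + 1) : ℕ) : ℝ) * cc) *
      ({f : k[X][X] | FamM g N r S h m F₁ f}.ncard : ℝ) := by
    refine h1.trans ?_
    have h5 : ((nm m ^ (2 * g + 1) * ∏ Q ∈ S ∪ T', nm Q ^ (2 * g + 1) : ℕ) : ℝ) ≤
        ((∏ Q ∈ S, nm Q ^ (2 * g + 1) : ℕ) : ℝ) * cc := by exact_mod_cast h3
    have h8 : (0 : ℝ) ≤ ({f : k[X][X] | FamM g N r S h m F₁ f}.ncard : ℝ) := Nat.cast_nonneg _
    apply mul_le_mul_of_nonneg_right (by linarith) h8
  have hccR : (0 : ℝ) < cc := by exact_mod_cast hccpos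
  rw [div_mul_eq_mul_div, one_mul, div_le_iff₀ (by positivity)]
  calc (Nat.card k : ℝ) ^ (2 * N * ddA g) ≤ _ := h4
    _ = _ := by ring

end poly

end Pool.Agent.H859.TWC
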