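import Pool.Agent.H859.TWC.Car

/-!
# Infinitely many primes `Q` of `k[X]` with `Q ≡ 1` modulo `m`
-/

set_option autoImplicit false
set_option linter.all false

open Polynomial
open Pool.Agent.N874.PM Pool.Agent.N874.PP
open scoped Classical IntermediateField

namespace Pool.Agent.H859.Car

/-- A polynomial which splits over a Galois extension splits modulo the primes which have a zero of
a defining polynomial (after helper2). -/
theorem splits_mod {k K M : Type} [Field k] [Field K] [Algebra k[X] K]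
    [IsFractionRing k[X] K] [Field M] [Algebra K M] [Algebra k[X] M] [IsScalarTower k[X] K M]
    [FiniteDimensional K M] [IsGalois K M] (γ : M) (g : k[X][X]) (δ : k[X])
    (hG : Gen K γ g δ) (hd : g.natDegree = Module.finrank K M) (F : k[X][X]) (hF : F.Monic)
    (hFs : (F.map (algebraMap k[X] M)).Splits) :
    ∃ Δ : k[X], Δ ≠ 0 ∧ ∀ Q : k[X], Irreducible Q → ¬ Q ∣ Δ → ∀ c : k[X], Q ∣ g.eval c →
      (F.map (Ideal.Quotient.mk (Ideal.span {Q}))).Splits := by
  have hRK : Function.Injective (algebraMap k[X] K) := IsFractionRing.injective k[X] K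
  have hRM : Function.Injective (algebraMap k[X] M) := by
    rw [IsScalarTower.algebraMap_eq k[X] K M]
    exact (algebraMap K M).injective.comp hRK
  have hint : IsIntegral K γ := Algebra.IsIntegral.isIntegral γ
  have hmin : g.map (algebraMap k[X] K) = minpoly K γ := by
    refine (eq_of_monic_of_dvd_of_natDegree_le (minpoly.monic hint) (hG.monic.map _) ?_ ?_)
    · apply minpoly.dvd
      rw [aeval_map_algebraMap]
      exact hG.root
    · rw [hG.monic.natDegree_map, hd, (Field.primitive_element_iff_minpoly_natDegree_eq K γ).1 hG.top]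
  have hroot : eval₂ (algebraMap k[X] M) γ g = 0 := hG.root
  set ι : AdjoinRoot g →+* M := AdjoinRoot.lift (algebraMap k[X] M) γ hroot with hι
  have hιinj : Function.Injective ι := by
    rw [injective_iff_map_eq_zero]
    intro a ha
    obtain ⟨p, rfl⟩ := AdjoinRoot.mk_surjective a
    rw [hι, AdjoinRoot.lift_mk] at ha
    rw [AdjoinRoot.mk_eq_zero, ← Polynomial.map_dvd_map _ hRK hG.monic, hmin]
    apply minpoly.dvd
    rw [aeval_map_algebraMap]
    exact ha
  have hden : ∀ m : M, ∃ (Δ : k[X]) (a : AdjoinRoot g), Δ ≠ 0 ∧ ι a = algebraMap k[X] M Δ * m := by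
    intro m
    have h1 : m ∈ K⟮γ⟯.toSubalgebra := by
      rw [hG.top]; exact Algebra.mem_top
    rw [IntermediateField.adjoin_simple_toSubalgebra_of_isAlgebraic hint.isAlgebraic,
      Algebra.adjoin_singleton_eq_range_aeval] at h1
    obtain ⟨p, hp⟩ := h1
    obtain ⟨b, hb, hb2⟩ := IsLocalization.integerNormalization_spec (nonZeroDivisors k[X]) p
    refine ⟨b, AdjoinRoot.mk g (IsLocalization.integerNormalization (nonZeroDivisors k[X]) p),
      nonZeroDivisors.ne_zero hb, ?_⟩
    rw [hι, AdjoinRoot.lift_mk]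
    have h2 : eval₂ (algebraMap k[X] M) γ
        (IsLocalization.integerNormalization (nonZeroDivisors k[X]) p) =
        aeval γ ((IsLocalization.integerNormalization (nonZeroDivisors k[X]) p).map
          (algebraMap k[X] K)) := by
      rw [aeval_map_algebraMap]; rfl
    rw [h2, hb2, ← hp]
    have h3 : b • p = C (algebraMap k[X] K b) * p := by
      rw [← smul_eq_C_mul, algebraMap_smul]
    rw [h3, map_mul, aeval_C, ← IsScalarTower.algebraMap_apply]
    rfl
  choose Δ a hΔ ha using hden
  set rts : Multiset M := (F.map (algebraMap k[X] M)).roots with hrts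
  have hsp : F.map (algebraMap k[X] M) = (rts.map fun m => X - C m).prod :=
    hFs.eq_prod_roots_of_monic (hF.map _)
  have key : C ((rts.map fun m => AdjoinRoot.of g (Δ m)).prod) * F.map (AdjoinRoot.of g) =
      (rts.map fun m => C (AdjoinRoot.of g (Δ m)) * X - C (a m)).prod := by
    apply Polynomial.map_injective ι hιinj
    have hcomp : ι.comp (AdjoinRoot.of g) = algebraMap k[X] M := by
      ext x <;> simp [hι]
    rw [Polynomial.map_mul, Polynomial.map_map, hcomp, hsp, map_C, Polynomial.map_multiset_prod,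
      Multiset.map_map, map_multiset_prod, Multiset.map_map, map_multiset_prod C, Multiset.map_map,
      ← Multiset.prod_map_mul]
    congr 1
    refine Multiset.map_congr rfl fun m _ => ?_
    have hofm : ι (AdjoinRoot.of g (Δ m)) = algebraMap k[X] M (Δ m) := by
      rw [← hcomp]; rfl
    simp only [Function.comp_apply, Polynomial.map_sub, Polynomial.map_mul, map_X, map_C, ha, hofm,
      C_mul]
    ring
  refine ⟨(rts.map Δ).prod, ?_, ?_⟩
  · rw [Ne, Multiset.prod_eq_zero_iff]
    intro h0
    obtain ⟨m, _, hm⟩ := Multiset.mem_map.1 h0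
    exact hΔ m hm
  · intro Q hQ hQΔ c hc
    have hmax : (Ideal.span {Q}).IsMaximal := PrincipalIdealRing.isMaximal_of_irreducible hQ
    let _ := Ideal.Quotient.field (Ideal.span {Q})
    set q := Ideal.Quotient.mk (Ideal.span {Q}) with hq
    have hqc : eval₂ q (q c) g = 0 := by
      rw [eval₂_at_apply]
      exact Ideal.Quotient.eq_zero_iff_mem.2 (Ideal.mem_span_singleton.2 hc)
    set φ : AdjoinRoot g →+* (k[X] ⧸ Ideal.span {Q}) := AdjoinRoot.lift q (q c) hqc with hφ
    have hcomp : φ.comp (AdjoinRoot.of g) = q := by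
      ext x <;> simp [hφ]
    have h1 := congrArg (Polynomial.map φ) key
    rw [Polynomial.map_mul, Polynomial.map_map, hcomp, map_C, Polynomial.map_multiset_prod,
      Multiset.map_map] at h1
    have h2 : ((rts.map ((Polynomial.map φ) ∘ fun m => C (AdjoinRoot.of g (Δ m)) * X - C (a m))).prod).Splits := by
      apply Splits.multisetProd
      intro f hf
      obtain ⟨m, _, rfl⟩ := Multiset.mem_map.1 hf
      apply Splits.of_natDegree_le_one
      simp only [Function.comp_apply, Polynomial.map_sub, Polynomial.map_mul, map_X, map_C]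
      refine (natDegree_sub_le _ _).trans ?_
      rw [natDegree_C, max_eq_left (Nat.zero_le _)]
      exact (natDegree_C_mul_le _ _).trans natDegree_X_le
    rw [← h1] at h2
    refine (splits_mul_iff_right ?_ (Splits.C _)).1 h2
    rw [Ne, C_eq_zero, map_multiset_prod, Multiset.map_map]
    have h3 : (φ ∘ fun m => AdjoinRoot.of g (Δ m)) = q ∘ Δ := by
      funext m
      rw [← hcomp]; rfl
    rw [h3, ← Multiset.map_map, ← map_multiset_prod]
    intro h0
    exact hQΔ (Ideal.mem_span_singleton.1 (Ideal.Quotient.eq_zero_iff_mem.1 h0))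

theorem cop {F : Type} [Field F] (p : F[X]) {c : F} (hc : c ≠ 0) : IsCoprime p (C c) :=
  ⟨0, C c⁻¹, by rw [zero_mul, zero_add, ← C_mul, inv_mul_cancel₀ hc, C_1]⟩

variable {k : Type} [Field k] [Fintype k]

/-- If the polynomial of `m` splits modulo `Q` and `Q` does not divide `m`, then `Q ≡ 1`
modulo `m`. -/
theorem one_of_splits {m Q : k[X]} (hm : m.Monic) (hQ : Q.Monic) (hQi : Irreducible Q)
    (hQm : ¬ Q ∣ m)
    (hs : ((CP (X : k[X]) m).map (Ideal.Quotient.mk (Ideal.span {Q}))).Splits) : m ∣ Q - 1 := by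
  haveI : Fact (Irreducible Q) := ⟨hQi⟩
  haveI : Module.Finite k (AdjoinRoot Q) := fin_adj
  haveI : Finite (AdjoinRoot Q) := Module.finite_of_finite k
  haveI : Fintype (AdjoinRoot Q) := Fintype.ofFinite _
  have hcard : Fintype.card (AdjoinRoot Q) = Fintype.card k ^ Q.natDegree := by
    rw [Module.card_eq_pow_finrank (K := k) (V := AdjoinRoot Q),
      (AdjoinRoot.powerBasis hQi.ne_zero).finrank, AdjoinRoot.powerBasis_dim]
  set α := AdjoinRoot.root Q with hα
  let ψ : k[X] →ₐ[k] AdjoinRoot Q := AdjoinRoot.mkₐ Q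
  have hψX : ψ X = α := rfl
  have hmap : (CP (X : k[X]) m).map (Ideal.Quotient.mk (Ideal.span {Q})) = CP α m := by
    have h1 := map_CP (k := k) ψ (X : k[X]) m
    rw [hψX] at h1
    exact h1
  have hs' : @Polynomial.Splits (AdjoinRoot Q) _ (CP α m) := by
    rw [hmap] at hs
    exact hs
  -- separability
  have hder : derivative (CP α m) = C (aeval α m) := der_CP α m
  have hne : aeval α m ≠ 0 := by
    rw [hα, aeval_def, AdjoinRoot.algebraMap_eq]
    intro h0
    apply hQm
    rw [← AdjoinRoot.mk_eq_zero]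
    have h2 : AdjoinRoot.mk Q m = eval₂ (AdjoinRoot.of Q) (AdjoinRoot.root Q) m := by
      have h3 := AdjoinRoot.aeval_eq (f := Q) m
      rw [aeval_def, AdjoinRoot.algebraMap_eq] at h3
      exact h3.symm
    rw [h2]
    exact h0
  have hsep : (CP α m).Separable := by
    unfold Polynomial.Separable
    rw [hder]
    exact cop _ hne
  -- the kernels
  have hker : ∀ e : k[X], e ≠ 0 → ∀ b : AdjoinRoot Q, aeval (phi (k := k) α) e b = 0 ↔
      b ∈ (CP α e).roots := by
    intro e he b
    have h0 : CP α e ≠ 0 := by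
      intro h0
      have h1 := CP_natDegree (B := AdjoinRoot Q) α he
      rw [h0, natDegree_zero] at h1
      have h2 : 0 < Fintype.card k ^ e.natDegree := pow_pos Fintype.card_pos _
      omega
    rw [mem_roots h0, IsRoot, eval_CP]
  have hQ1 : ∀ b : AdjoinRoot Q, aeval (phi (k := k) α) (Q - 1) b = 0 := by
    intro b
    rw [map_sub, map_one, LinearMap.sub_apply, Module.End.one_apply, ← eval_CP, CP_self hQ,
      eval_pow, eval_X, ← hcard, FiniteField.pow_card, sub_self]
  set e := EuclideanDomain.gcd m (Q - 1) with he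
  have he0 : e ≠ 0 := by
    intro h0
    exact hm.ne_zero (EuclideanDomain.gcd_eq_zero_iff.1 h0).1
  have hem : e ∣ m := EuclideanDomain.gcd_dvd_left _ _
  have heQ : e ∣ Q - 1 := EuclideanDomain.gcd_dvd_right _ _
  have hsub : (CP α m).roots.toFinset ⊆ (CP α e).roots.toFinset := by
    intro b hb
    rw [Multiset.mem_toFinset, ← hker m hm.ne_zero] at hb
    rw [Multiset.mem_toFinset, ← hker e he0]
    have h1 := EuclideanDomain.gcd_eq_gcd_ab m (Q - 1)
    rw [he, h1, mul_comm m, mul_comm (Q - 1), map_add, map_mul, map_mul, LinearMap.add_apply,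
      Module.End.mul_apply, Module.End.mul_apply, hb, hQ1, map_zero, map_zero, add_zero]
  have hc1 : (CP α m).roots.toFinset.card = Fintype.card k ^ m.natDegree := by
    rw [Multiset.toFinset_card_of_nodup (nodup_roots hsep), ← CP_natDegree (B := AdjoinRoot Q) α
      hm.ne_zero]
    exact hs'.natDegree_eq_card_roots.symm
  have hc2 : (CP α e).roots.toFinset.card ≤ Fintype.card k ^ e.natDegree := by
    refine (Multiset.toFinset_card_le _).trans ?_
    refine (card_roots' _).trans (CP_deg α e)
  have hle : m.natDegree ≤ e.natDegree := by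
    have h1 := (Finset.card_le_card hsub).trans hc2
    rw [hc1] at h1
    exact (Nat.pow_le_pow_iff_right Fintype.one_lt_card).1 h1
  obtain ⟨u, hu⟩ := hem
  have hu0 : u ≠ 0 := by
    rintro rfl
    rw [mul_zero] at hu
    exact hm.ne_zero hu
  have hdu : u.natDegree = 0 := by
    have h1 := congrArg natDegree hu
    rw [natDegree_mul he0 hu0] at h1
    omega
  have huu : IsUnit u := by
    rw [isUnit_iff_degree_eq_zero, degree_eq_natDegree hu0, hdu]
    rfl
  rw [hu]
  exact (huu.mul_right_dvd).2 heQ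

/-- **Infinitely many primes are congruent to `1` modulo `m`.** -/
theorem exists_one (m : k[X]) (hm : m ≠ 0) (n : ℕ) : ∃ S : Finset k[X],
    (∀ Q ∈ S, Q.Monic ∧ Irreducible Q) ∧ S.card = n ∧ ∀ Q ∈ S, ¬ Q ∣ m ∧ m ∣ Q - 1 := by
  wlog hmm : m.Monic with H
  · obtain ⟨S, h1, h2, h3⟩ := H (m * C m.leadingCoeff⁻¹)
      (monic_mul_leadingCoeff_inv hm).ne_zero n (monic_mul_leadingCoeff_inv hm)
    have hu : IsUnit (C m.leadingCoeff⁻¹ : k[X]) :=
      isUnit_C.2 (isUnit_iff_ne_zero.2 (inv_ne_zero (leadingCoeff_ne_zero.2 hm)))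
    refine ⟨S, h1, h2, fun Q hQ => ⟨fun h => (h3 Q hQ).1 (h.mul_right _), ?_⟩⟩
    exact (dvd_mul_right m _).trans (h3 Q hQ).2
  let K := FractionRing k[X]
  set F : K[X] := (CP (X : k[X]) m).map (algebraMap k[X] K) with hF
  have hFm : F.Monic := (CP_monic (X : k[X]) hmm).map _
  let M := F.SplittingField
  have hFsep : F.Separable := by
    unfold Polynomial.Separable
    rw [hF, derivative_map, der_CP, map_C]
    refine cop _ ?_
    rw [Ne, IsFractionRing.to_map_eq_zero_iff, aeval_X_left_apply]
    exact hm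
  haveI : IsGalois K M := IsGalois.of_separable_splitting_field hFsep
  haveI : IsScalarTower k[X] K M := inferInstance
  obtain ⟨γ, g, δ, hG, hd⟩ := Pool.Agent.N169.PM.gen k K M
  have hsp : ((CP (X : k[X]) m).map (algebraMap k[X] M)).Splits := by
    have h1 := SplittingField.splits F
    rw [hF, Polynomial.map_map, ← IsScalarTower.algebraMap_eq k[X] K M] at h1
    exact h1
  obtain ⟨Δ, hΔ0, hΔ⟩ := splits_mod γ g δ hG hd (CP (X : k[X]) m) (CP_monic (X : k[X]) hmm) hsp
  have hg0 : g.natDegree ≠ 0 := by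
    rw [hd]; exact Module.finrank_pos.ne'
  have hinf : {Q : k[X] | Q.Monic ∧ Irreducible Q ∧ ¬ Q ∣ m ∧ m ∣ Q - 1}.Infinite := by
    intro hfin
    set P₀ : k[X] := m * (Δ * ∏ Q ∈ hfin.toFinset, Q) with hPi
    have hPi0 : P₀ ≠ 0 := by
      refine mul_ne_zero hm (mul_ne_zero hΔ0 (Finset.prod_ne_zero_iff.2 fun Q hQ => ?_))
      exact (hfin.mem_toFinset.1 hQ).1.ne_zero
    obtain ⟨Q, c, h1, h2, h3, h4⟩ := Pool.Agent.N2.PM.claim2 g hG.monic hg0 P₀ hPi0
    have hQm : ¬ Q ∣ m := fun h => h3 (h.mul_right _)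
    have h5 := hΔ Q h2 (fun h => h3 ((h.mul_right _).mul_left _)) c h4
    have h6 := one_of_splits hmm h1 h2 hQm h5
    apply h3
    exact ((Finset.dvd_prod_of_mem _ (hfin.mem_toFinset.2 ⟨h1, h2, hQm, h6⟩)).mul_left _).mul_left _
  obtain ⟨S, hS1, hS2⟩ := hinf.exists_subset_card_eq n
  exact ⟨S, fun Q hQ => ⟨(hS1 hQ).1, (hS1 hQ).2.1⟩, hS2, fun Q hQ => (hS1 hQ).2.2⟩

end Pool.Agent.H859.Car
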