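import Pool.Agent.H859.TWC.Fld
import Pool.Agent.H859.TWC.Den
import Pool.Agent.H859.TWC.One
import Pool.Agent.H859.SC.N874JMCnt
import Pool.Agent.H859.SC.N874JMPar
import Pool.Agent.H859.SC.Down2

/-!
# A positive proportion of a residue class, over many 2-extensions: counting
-/

set_option autoImplicit false
set_option linter.all false

open Polynomial IsDedekindDomain
open Pool.Agent.N352.PJ
open Pool.Agent.N415.PJMAIN hiding ht_card ht_scale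
open Pool.Agent.H859.N415.PJMAIN
open Pool.Agent.N874.PP (nm Ov Ev Sq1 U0)
open scoped Classical IntermediateField

namespace Pool.Agent.H859.TWC

open Pool.Agent.N874.JM Pool.Agent.H859.PJ Pool.Agent.H859.N874.TW
open Pool.Agent.H859.N874.JM (PartsA)

/-- Many polynomials of the family are not bad. -/
theorem good_cardM {g : ℕ} {k : Type} [Field k] [Finite k] (hBAD : S_BADA)
    (hg : 1 ≤ g) (h2 : (2 : k) ≠ 0) (r : k[X]) {m₀ : k[X]} {F₁ : k[X][X]} (hM : GoodM g m₀ F₁)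
    (Φ : k[X] → Prop)
    (hEX : ∀ m : ℕ, ∃ (S : Finset k[X]) (s : k[X] → k[X][X]), GoodSA g S s ∧ S.card = m ∧
      (∀ Q ∈ S, ¬ Q ∣ m₀) ∧ ∀ Q ∈ S, Φ Q) :
    ∃ (S : Finset k[X]) (s : k[X] → k[X][X]) (c : ℝ), GoodSA g S s ∧ (∀ Q ∈ S, ¬ Q ∣ m₀) ∧
      (∀ Q ∈ S, Φ Q) ∧ 0 < c ∧ ∃ N₀ : ℕ, ∀ N ≥ N₀,
      c * (Nat.card k : ℝ) ^ (2 * N * ddA g) ≤
        ({f : k[X][X] | FamM g N r S s m₀ F₁ f ∧ ¬ LBadA g N S s f}.ncard : ℝ) := by
  obtain ⟨c, hc, hfam⟩ := famM hg h2 r hM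
  obtain ⟨m, hm⟩ : ∃ m : ℕ, 2 ^ (g + 2) * (Nat.card k : ℝ) ^ ddA g / c < 2 ^ m :=
    pow_unbounded_of_one_lt _ (by norm_num)
  obtain ⟨S, s, hS, hcard, hdis, hΦ⟩ := hEX m
  obtain ⟨N₁, h1⟩ := hfam S s hS hdis
  obtain ⟨N₂, h2⟩ := hBAD g k hg h2 S s hS
  have hq : (0 : ℝ) < Nat.card k := by exact_mod_cast Nat.card_pos
  set P : ℕ := ∏ Q ∈ S, nm Q ^ (2 * g + 1) with hP
  have hP0 : (0 : ℝ) < P := by
    have : 0 < P := Finset.prod_pos fun Q _ => pow_pos (pow_pos Nat.card_pos _) _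
    exact_mod_cast this
  refine ⟨S, s, c / (2 * P), hS, hdis, hΦ, by positivity, max N₁ N₂, fun N hN => ?_⟩
  have hF := h1 N ((le_max_left _ _).trans hN)
  obtain ⟨hfin, hB⟩ := h2 N ((le_max_right _ _).trans hN)
  have hd := Set.le_ncard_diff {f : k[X][X] | LBadA g N S s f}
    {f : k[X][X] | FamM g N r S s m₀ F₁ f} hfin
  have e : {f : k[X][X] | FamM g N r S s m₀ F₁ f} \ {f : k[X][X] | LBadA g N S s f} =
      {f : k[X][X] | FamM g N r S s m₀ F₁ f ∧ ¬ LBadA g N S s f} := rfl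
  rw [e] at hd
  set F : ℕ := {f : k[X][X] | FamM g N r S s m₀ F₁ f}.ncard
  set Bd : ℕ := {f : k[X][X] | LBadA g N S s f}.ncard
  set G : ℕ := {f : k[X][X] | FamM g N r S s m₀ F₁ f ∧ ¬ LBadA g N S s f}.ncard
  have hd' : (F : ℝ) ≤ Bd + G := by
    have : F ≤ Bd + G := by omega
    exact_mod_cast this
  have hB' : (2 : ℝ) ^ m * P * Bd ≤ 2 ^ (g + 1) * (Nat.card k : ℝ) ^ ((2 * N + 1) * ddA g) := by
    rw [hcard] at hB
    exact_mod_cast hB
  have hF' : c * (Nat.card k : ℝ) ^ (2 * N * ddA g) ≤ P * F := hF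
  rw [div_lt_iff₀ hc] at hm
  have hPB : P * (Bd : ℝ) ≤ c / 2 * (Nat.card k : ℝ) ^ (2 * N * ddA g) := by
    have h2r : (0 : ℝ) < 2 ^ m := by positivity
    rw [← mul_le_mul_iff_right₀ h2r]
    calc 2 ^ m * (P * (Bd : ℝ)) = 2 ^ m * P * Bd := by ring
      _ ≤ 2 ^ (g + 1) * (Nat.card k : ℝ) ^ ((2 * N + 1) * ddA g) := hB'
      _ = (2 ^ (g + 2) * (Nat.card k : ℝ) ^ ddA g) * ((Nat.card k : ℝ) ^ (2 * N * ddA g) / 2) := by
        rw [show (2 * N + 1) * ddA g = 2 * N * ddA g + ddA g by ring, pow_add]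
        ring
      _ ≤ (2 ^ m * c) * ((Nat.card k : ℝ) ^ (2 * N * ddA g) / 2) := by gcongr
      _ = 2 ^ m * (c / 2 * (Nat.card k : ℝ) ^ (2 * N * ddA g)) := by ring
  have hPG : c / 2 * (Nat.card k : ℝ) ^ (2 * N * ddA g) ≤ P * G := by
    have : (P : ℝ) * F ≤ P * Bd + P * G := by
      rw [← mul_add]
      exact mul_le_mul_of_nonneg_left hd' hP0.le
    linarith
  calc c / (2 * P) * (Nat.card k : ℝ) ^ (2 * N * ddA g)
      = c / 2 * (Nat.card k : ℝ) ^ (2 * N * ddA g) / P := by field_simp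
    _ ≤ P * G / P := by gcongr
    _ = G := by field_simp

theorem uni_self {k : Type} [Field k] {K : Type} [Field K] [Algebra k[X] K]
    [IsFractionRing k[X] K] {S : Finset k[X]} {f : k[X][X]} (hf : f.Monic) {D : k[X]}
    (h : Uni K S f (f.scaleRoots D)) : Uni K S (f.scaleRoots D) (f.scaleRoots D) := by
  intro M _ _ _ _ _ _ R _ _ _ _ _ _ _ n hM hQs hPr
  exact h M R n hM hQs fun P hP hPi hw => irr_mod hf hPi (hPr P hP hPi hw)

/-- a product of elements congruent to one -/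
theorem prod_one {k : Type} [Field k] {m : k[X]} (J : Finset k[X])
    (h : ∀ Q ∈ J, m ∣ Q - 1) : m ∣ (∏ Q ∈ J, Q) - 1 := by
  induction J using Finset.induction_on with
  | empty => rw [Finset.prod_empty, sub_self]; exact dvd_zero _
  | insert Q J hQ ih =>
    rw [Finset.prod_insert hQ]
    have h1 := h Q (Finset.mem_insert_self _ _)
    have h2 := ih fun P hP => h P (Finset.mem_insert_of_mem hP)
    have e : Q * (∏ P ∈ J, P) - 1 = Q * ((∏ P ∈ J, P) - 1) + (Q - 1) := by ring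
    rw [e]
    exact dvd_add (h2.mul_left _) h1

/-- scaling by an element congruent to one -/
theorem cg_scale {k : Type} [Field k] {m D : k[X]} {f F₁ : k[X][X]} (hD : m ∣ D - 1)
    (h : Cg m f F₁) : Cg m (f.scaleRoots D) F₁ := by
  intro j
  rw [coeff_scaleRoots]
  have h1 : m ∣ D ^ (f.natDegree - j) - 1 := by
    have := sub_dvd_pow_sub_pow D 1 (f.natDegree - j)
    rw [one_pow] at this
    exact hD.trans this
  have e : f.coeff j * D ^ (f.natDegree - j) - F₁.coeff j =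
      f.coeff j * (D ^ (f.natDegree - j) - 1) + (f.coeff j - F₁.coeff j) := by ring
  rw [e]
  exact dvd_add (h1.mul_left _) (h j)

/-- A positive proportion of the residue class, over all `M`. -/
theorem mainM (H : PartsA) (hBAD : S_BADA) {g : ℕ}
    (k : Type) [Field k] [Finite k] (hg : 1 ≤ g) (h2 : (2 : k) ≠ 0)
    (K : Type) [Field K] [Algebra k[X] K] [IsFractionRing k[X] K] {m₀ : k[X]} {F₁ : k[X][X]}
    (hM₀ : GoodM g m₀ F₁) :
    ∃ S : Finset k[X], (∀ Q ∈ S, Q.Monic ∧ Irreducible Q ∧ ¬ Q ∣ m₀) ∧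
    ∃ c : ℝ, 0 < c ∧ ∃ N₀ : ℕ, ∀ N ≥ N₀, {f : k[X][X] | HtA g N f}.Finite ∧
    c * ({f : k[X][X] | HtA g N f}.ncard : ℝ) ≤
      ({f : k[X][X] | HtA g N f ∧ MiniA g f ∧ (f.map (algebraMap k[X] K)).Separable ∧
        Irreducible (f.map (algebraMap k[X] K)) ∧ Cg m₀ f F₁ ∧ Uni K S f f}.ncard : ℝ) := by
  obtain ⟨r, hr⟩ := Pool.Agent.H859.Tch.gr g k hg
  haveI := Fintype.ofFinite k
  obtain ⟨S, s, c, hS, hdis, hsp, hc, N₀, hN₀⟩ := good_cardM hBAD hg h2 r hM₀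
    (fun Q => m₀ ∣ Q - 1) (by
      intro a
      obtain ⟨S, hS, hcard, hS1⟩ := Pool.Agent.H859.Car.exists_one m₀ hM₀.ne a
      obtain ⟨h, hh⟩ := (Pool.Agent.H859.Tch.tch g k hg S hS).2
      exact ⟨S, h, hh, hcard, fun Q hQ => (hS1 Q hQ).1, fun Q hQ => (hS1 Q hQ).2⟩)
  refine ⟨S, fun Q hQ => ⟨(hS Q hQ).1, (hS Q hQ).2.1, hdis Q hQ⟩, ?_⟩
  set e : ℕ := (∏ Q ∈ S, Q).natDegree with he
  have hq : (0 : ℝ) < Nat.card k := by exact_mod_cast Nat.card_pos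
  have hq1 : (1 : ℝ) ≤ Nat.card k := by exact_mod_cast Nat.card_pos
  have hS0 : (∏ Q ∈ S, Q) ≠ 0 := by
    rw [Finset.prod_ne_zero_iff]
    exact fun Q hQ => (hS Q hQ).2.1.ne_zero
  refine ⟨c / (2 ^ S.card * (Nat.card k : ℝ) ^ ((e + 1) * ddA g + (2 * g + 1))), by positivity,
    2 * N₀ + e, fun M' hM' => ⟨(ht_card g M').1, ?_⟩⟩
  obtain ⟨N, hN, hN1, hN2⟩ : ∃ N, N₀ ≤ N ∧ 2 * N + e ≤ M' ∧ M' ≤ 2 * N + e + 1 :=
    ⟨(M' - e) / 2, by omega, by omega, by omega⟩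
  have hG' := hN₀ N hN
  set Hs := {f : k[X][X] | HtA g M' f ∧ MiniA g f ∧ (f.map (algebraMap k[X] K)).Separable ∧
        Irreducible (f.map (algebraMap k[X] K)) ∧ Cg m₀ f F₁ ∧ Uni K S f f} with hH
  set G := {f : k[X][X] | FamM g N r S s m₀ F₁ f ∧ ¬ LBadA g N S s f} with hGdef
  have hHf : Hs.Finite := (ht_card g M').1.subset fun f hf => hf.1
  have hGf : G.Finite := (ht_card g (2 * N)).1.subset fun f hf => hf.1.fam.ht
  have hJ0 : ∀ J ⊆ S, (∏ Q ∈ J, Q) ≠ 0 := by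
    intro J hJ
    rw [Finset.prod_ne_zero_iff]
    exact fun Q hQ => (hS Q (hJ hQ)).2.1.ne_zero
  have hJs : ∀ J ⊆ S, Squarefree (∏ Q ∈ J, Q) := by
    intro J hJ
    refine Finset.squarefree_prod_of_pairwise_isCoprime ?_ fun Q hQ => (hS Q (hJ hQ)).2.1.squarefree
    intro Q hQ Q' hQ' hne
    show IsRelPrime Q Q'
    refine IsCoprime.isRelPrime ?_
    rw [(hS Q (hJ hQ)).2.1.coprime_iff_not_dvd]
    intro hd
    exact hne (eq_of_monic_of_associated (hS Q (hJ hQ)).1 (hS Q' (hJ hQ')).1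
      ((hS Q (hJ hQ)).2.1.associated_of_dvd (hS Q' (hJ hQ')).2.1 hd))
  have hcard := card_fib hGf hHf S (fun J f => f.scaleRoots (∏ Q ∈ J, Q)) (by
      intro f hf
      obtain ⟨J, hJ, hsel⟩ := selF H K h2 hg hr hS hf.1.fam hf.2
      have hDle : (∏ Q ∈ J, Q).natDegree ≤ e :=
        natDegree_le_of_dvd (Finset.prod_dvd_prod_of_subset _ _ _ hJ) hS0
      obtain ⟨-, i2, i3⟩ := H.irk g k K f N r (∏ Q ∈ J, Q) hf.1.fam.ht hr hf.1.fam.inf (hJ0 J hJ)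
      exact ⟨J, hJ, ht_scale hf.1.fam.ht (by omega),
        mini_scale hg hf.1.fam.ht.mon hf.1.fam.ht.deg hf.1.fam.sq (hJs J hJ),
        (i3 hf.1.fam.sq.ne_zero).2, i2,
        cg_scale (prod_one J fun Q hQ => hsp Q (hJ hQ)) hf.1.con, uni_self hf.1.fam.ht.mon hsel⟩) (by
      intro J hJ x hx y hy hxy
      exact scale_inj (hJ0 J hJ) (by rw [hx.1.fam.ht.deg, hy.1.fam.ht.deg]) hxy)
  have hcard' : (G.ncard : ℝ) ≤ 2 ^ S.card * Hs.ncard := by exact_mod_cast hcard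
  have hM'' : ({f : k[X][X] | HtA g M' f}.ncard : ℝ) ≤
      (Nat.card k : ℝ) ^ (2 * N * ddA g) *
        (Nat.card k : ℝ) ^ ((e + 1) * ddA g + (2 * g + 1)) := by
    have h3 : ({f : k[X][X] | HtA g M' f}.ncard : ℝ) ≤
        (Nat.card k : ℝ) ^ (M' * ddA g + (2 * g + 1)) := by
      exact_mod_cast (ht_card (k := k) g M').2
    refine h3.trans ?_
    rw [← pow_add]
    refine pow_le_pow_right₀ hq1 ?_
    have h4 : M' * ddA g ≤ (2 * N + e + 1) * ddA g := Nat.mul_le_mul_right _ hN2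
    calc M' * ddA g + (2 * g + 1) ≤ (2 * N + e + 1) * ddA g + (2 * g + 1) := by omega
      _ = _ := by ring
  have hpow : (0 : ℝ) < (Nat.card k : ℝ) ^ ((e + 1) * ddA g + (2 * g + 1)) := by positivity
  calc c / (2 ^ S.card * (Nat.card k : ℝ) ^ ((e + 1) * ddA g + (2 * g + 1))) *
        ({f : k[X][X] | HtA g M' f}.ncard : ℝ)
      ≤ c / (2 ^ S.card * (Nat.card k : ℝ) ^ ((e + 1) * ddA g + (2 * g + 1))) *
        ((Nat.card k : ℝ) ^ (2 * N * ddA g) *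
          (Nat.card k : ℝ) ^ ((e + 1) * ddA g + (2 * g + 1))) :=
        mul_le_mul_of_nonneg_left hM'' (by positivity)
    _ = c * (Nat.card k : ℝ) ^ (2 * N * ddA g) / 2 ^ S.card := by
        field_simp
    _ ≤ (G.ncard : ℝ) / 2 ^ S.card := by gcongr
    _ ≤ (2 ^ S.card * Hs.ncard) / 2 ^ S.card := by gcongr
    _ = Hs.ncard := by field_simp

end Pool.Agent.H859.TWC
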