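import Pool.Agent.H859.TWC.Fin
import Pool.Graph.R_pool_sql_team_seeded_63374d34.N603.PM.UR
import Pool.Graph.R_pool_sql_team_seeded_63374d34.N169.PM.SPD
import Pool.Graph.R_pool_sql_team_seeded_63374d34.N169.PM.GEN

/-!
# Primes which are congruent to one and split completely in a given field
-/

set_option autoImplicit false
set_option linter.all false

open Polynomial IsDedekindDomain
open Pool.Agent.N874.PM Pool.Agent.N874.PP
open Pool.Agent.H859.Car (CP CP_monic der_CP cop splits_mod one_of_splits)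
open scoped Classical IntermediateField

namespace Pool.Agent.H859.TWC

section ram

variable {k : Type} [Field k] {K : Type} [Field K] [Algebra k[X] K] [IsFractionRing k[X] K]
  {M : Type} [Field M] [Algebra K M] [Algebra k[X] M] [IsScalarTower k[X] K M]
  (R : Type) [CommRing R] [IsDedekindDomain R] [Algebra R M] [IsFractionRing R M]
  [Algebra k[X] R] [IsScalarTower k[X] R M]

theorem not_ov {P a : k[X]} (hP : Irreducible P) (hPa : ¬ P ∣ a) (w : HeightOneSpectrum R)
    (hw : algebraMap k[X] R P ∈ w.asIdeal) : algebraMap k[X] R a ∉ w.asIdeal := by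
  intro h
  obtain ⟨u, v, huv⟩ := (hP.coprime_iff_not_dvd).2 hPa
  apply w.isPrime.ne_top
  rw [Ideal.eq_top_iff_one]
  have h1 : algebraMap k[X] R (u * P + v * a) ∈ w.asIdeal := by
    rw [map_add, map_mul, map_mul]
    exact Ideal.add_mem _ (Ideal.mul_mem_left _ _ hw) (Ideal.mul_mem_left _ _ h)
  rwa [huv, map_one] at h1

/-- The primes which do not divide `δ` are unramified. -/
theorem unram [IsIntegralClosure R k[X] M] {γ : M} {g : k[X][X]} {δ : k[X]} (hG : Gen K γ g δ)
    {P : k[X]} (hP : Irreducible P) (hPδ : ¬ P ∣ δ) (w : HeightOneSpectrum R)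
    (hw : algebraMap k[X] R P ∈ w.asIdeal) : algebraMap k[X] R P ∉ w.asIdeal ^ 2 := by
  rw [← Pool.Agent.N874.TW.val_iff (M := M) P w hw]
  obtain ⟨𝔓, h𝔓⟩ := (Pool.Agent.N603.PM.UR.ur k K M k[X] R γ g δ hG).1 w
    (not_ov R hP hPδ w hw)
  rw [IsScalarTower.algebraMap_apply k[X] K M, h𝔓]
  have hPm : algebraMap k[X] k[X] P ∈ 𝔓.asIdeal := by
    have h1 : 𝔓.valuation K (algebraMap k[X] K P) < 1 := by
      rw [← h𝔓, ← IsScalarTower.algebraMap_apply k[X] K M,
        IsScalarTower.algebraMap_apply k[X] R M]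
      exact (w.valuation_lt_one_iff_mem _).2 hw
    exact (𝔓.valuation_lt_one_iff_mem P).1 h1
  refine (Pool.Agent.N874.TW.val_iff (R := k[X]) (M := K) P 𝔓 hPm).2 ?_
  have hmax : (Ideal.span {P}).IsMaximal := PrincipalIdealRing.isMaximal_of_irreducible hP
  have he : 𝔓.asIdeal = Ideal.span {P} := by
    refine (hmax.eq_of_le 𝔓.isPrime.ne_top ?_).symm
    rw [Ideal.span_singleton_le_iff_mem]
    exact hPm
  rw [he, Ideal.span_singleton_pow]
  intro h
  rw [Algebra.algebraMap_self, RingHom.id_apply, Ideal.mem_span_singleton] at h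
  obtain ⟨c, hc⟩ := h
  apply hP.not_isUnit
  refine IsUnit.of_mul_eq_one c ?_
  have h2 : P * 1 = P * (P * c) := by rw [mul_one]; linear_combination hc
  exact (mul_left_cancel₀ hP.ne_zero h2).symm

/-- The residue fields over `Q`. -/
theorem res_split {γ : M} {g : k[X][X]} {δ : k[X]} (hG : Gen K γ g δ)
    {Q : k[X]} (hQ : Irreducible Q) (hQδ : ¬ Q ∣ δ) (hs : SplitMod Q g) (w : HeightOneSpectrum R)
    (hw : algebraMap k[X] R Q ∈ w.asIdeal) (y : R) :
    ∃ c : k[X], y - algebraMap k[X] R c ∈ w.asIdeal := by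
  by_cases hy : y ∈ w.asIdeal
  · exact ⟨0, by rwa [map_zero, sub_zero]⟩
  have hy0 : algebraMap R M y ≠ 0 := by
    rw [Ne, IsFractionRing.to_map_eq_zero_iff]
    rintro rfl
    exact hy (zero_mem _)
  obtain ⟨s₀, hs₀⟩ := Pool.Agent.N169.PM.spd k K M R γ g δ hG Q hQ hs w hw
    (not_ov R hQ hQδ w hw) (algebraMap R M y) hy0
  have hy1 : w.valuation M (algebraMap R M y) = 1 := by
    refine le_antisymm (w.valuation_le_one _) (not_lt.1 fun h => hy ?_)
    exact (w.valuation_lt_one_iff_mem _).1 h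
  rw [hy1] at hs₀
  obtain ⟨a', ⟨b', hbm⟩, hco, hab⟩ := IsFractionRing.exists_reduced_fraction (A := k[X]) s₀
  have hb'0 : b' ≠ 0 := nonZeroDivisors.ne_zero hbm
  have hab' : s₀ = algebraMap k[X] K a' / algebraMap k[X] K b' := by
    rw [← hab, IsFractionRing.mk'_eq_div]
  obtain ⟨v, hv⟩ : ∃ v, v = w.valuation M := ⟨_, rfl⟩
  rw [← hv] at hs₀ hy1
  have hvle : ∀ x : k[X], v (algebraMap k[X] M x) ≤ 1 := by
    intro x
    rw [IsScalarTower.algebraMap_apply k[X] R M, hv]
    exact w.valuation_le_one _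
  have hvQ : v (algebraMap k[X] M Q) < 1 := by
    rw [IsScalarTower.algebraMap_apply k[X] R M, hv]
    exact (w.valuation_lt_one_iff_mem _).2 hw
  have hvs : v (algebraMap K M s₀) = 1 := by
    have h1 : v (algebraMap K M s₀ - algebraMap R M y) < v (algebraMap R M y) := by
      rw [Valuation.map_sub_swap, hy1]
      exact hs₀
    have h2 := v.map_add_eq_of_lt_left h1
    rw [add_sub_cancel] at h2
    rw [h2, hy1]
  have hdvd : ∀ x : k[X], v (algebraMap k[X] M x) < 1 → Q ∣ x := by
    intro x hx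
    by_contra hQx
    rw [IsScalarTower.algebraMap_apply k[X] R M, hv] at hx
    exact not_ov R hQ hQx w hw ((w.valuation_lt_one_iff_mem _).1 hx)
  have hbM : algebraMap k[X] M b' ≠ 0 := by
    rw [IsScalarTower.algebraMap_apply k[X] K M, Ne, map_eq_zero,
      IsFractionRing.to_map_eq_zero_iff]
    exact hb'0
  have hsM : algebraMap K M s₀ * algebraMap k[X] M b' = algebraMap k[X] M a' := by
    rw [hab', map_div₀, ← IsScalarTower.algebraMap_apply, ← IsScalarTower.algebraMap_apply,
      div_mul_cancel₀ _ hbM]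
  have hQb : ¬ Q ∣ b' := by
    intro h
    have h1 : v (algebraMap k[X] M b') < 1 := by
      obtain ⟨c, rfl⟩ := h
      rw [map_mul, map_mul]
      exact mul_lt_one_of_lt_of_le hvQ (hvle c)
    have h2 : v (algebraMap k[X] M a') < 1 := by
      rw [← hsM, map_mul, hvs, one_mul]
      exact h1
    exact hQ.not_isUnit (hco (hdvd _ h2) h)
  obtain ⟨u, t, hut⟩ := (hQ.coprime_iff_not_dvd).2 hQb
  refine ⟨a' * t, ?_⟩
  refine (w.valuation_lt_one_iff_mem (K := M) _).1 ?_
  have e0 : algebraMap R M (y - algebraMap k[X] R (a' * t)) =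
      algebraMap R M y - algebraMap k[X] M (a' * t) := by
    rw [map_sub, ← IsScalarTower.algebraMap_apply]
  change w.valuation M (algebraMap R M (y - algebraMap k[X] R (a' * t))) < 1
  rw [e0, ← hv]
  have hvb : v (algebraMap k[X] M b') = 1 :=
    le_antisymm (hvle _) (not_lt.1 fun h => hQb (hdvd _ h))
  have e : algebraMap R M y - algebraMap k[X] M (a' * t) =
      (algebraMap R M y - algebraMap K M s₀) + algebraMap K M s₀ * algebraMap k[X] M (u * Q) := by
    have h1 : algebraMap k[X] M (u * Q) = 1 - algebraMap k[X] M t * algebraMap k[X] M b' := by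
      rw [← map_mul, ← map_one (algebraMap k[X] M), ← map_sub]
      congr 1
      linear_combination hut
    rw [h1, map_mul, ← hsM]
    ring
  rw [e]
  refine lt_of_le_of_lt (v.map_add _ _) (max_lt hs₀ ?_)
  rw [map_mul, hvs, one_mul, map_mul, map_mul]
  calc v (algebraMap k[X] M u) * v (algebraMap k[X] M Q) ≤ 1 * v (algebraMap k[X] M Q) :=
        mul_le_mul_left (hvle u) _
    _ < 1 := by rw [one_mul]; exact hvQ

end ram

/-- `Q` splits completely. -/
def SplC {k : Type} [Field k] (R : Type) [CommRing R] [Algebra k[X] R] (Q : k[X]) : Prop :=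
  ∀ w : HeightOneSpectrum R, algebraMap k[X] R Q ∈ w.asIdeal →
    algebraMap k[X] R Q ∉ w.asIdeal ^ 2 ∧ ∀ y : R, ∃ c : k[X], y - algebraMap k[X] R c ∈ w.asIdeal

/-- A Galois extension which contains a given one and over which a given separable polynomial
splits. -/
theorem exists_ext {K : Type} [Field K] (M : Type) [Field M] [Algebra K M] [FiniteDimensional K M]
    [IsGalois K M] (F : K[X]) (hF : F.Separable) (hF0 : F ≠ 0) :
    ∃ (L : Type) (_ : Field L) (_ : Algebra K L) (_ : Algebra M L) (_ : IsScalarTower K M L),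
      IsGalois K L ∧ FiniteDimensional K L ∧ (F.map (algebraMap K L)).Splits := by
  obtain ⟨G, hG1, hG2⟩ := IsGalois.is_separable_splitting_field K M
  haveI := hG2
  refine ⟨(F.map (algebraMap K M)).SplittingField, inferInstance, inferInstance, inferInstance,
    inferInstance, ?_⟩
  haveI hSF2 : IsSplittingField K (F.map (algebraMap K M)).SplittingField (G * F) :=
    IsSplittingField.mul (K := M) (F.map (algebraMap K M)).SplittingField G F hG1.ne_zero hF0
  haveI : Normal K (F.map (algebraMap K M)).SplittingField := Normal.of_isSplittingField (G * F)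
  haveI : IsGalois M (F.map (algebraMap K M)).SplittingField :=
    IsGalois.of_separable_splitting_field (p := F.map (algebraMap K M)) hF.map
  haveI : Algebra.IsSeparable K (F.map (algebraMap K M)).SplittingField :=
    Algebra.IsSeparable.trans K M _
  refine ⟨⟨⟩, FiniteDimensional.trans K M _, ?_⟩
  have h1 := SplittingField.splits (F.map (algebraMap K M))
  rw [Polynomial.map_map, ← IsScalarTower.algebraMap_eq] at h1
  exact h1

/-- **Infinitely many primes are congruent to one modulo `m` and split completely in `M`.** -/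
theorem exists_one_split {k : Type} [Field k] [Finite k] {K : Type} [Field K] [Algebra k[X] K]
    [IsFractionRing k[X] K] (M : Type) [Field M] [Algebra K M] [Algebra k[X] M]
    [IsScalarTower k[X] K M] [FiniteDimensional K M] [IsGalois K M]
    (R : Type) [CommRing R] [IsDedekindDomain R] [Algebra R M] [IsFractionRing R M]
    [Algebra k[X] R] [IsScalarTower k[X] R M] [IsIntegralClosure R k[X] M]
    (m : k[X]) (hm : m ≠ 0) (n : ℕ) : ∃ S : Finset k[X],
    (∀ Q ∈ S, Q.Monic ∧ Irreducible Q) ∧ S.card = n ∧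
      ∀ Q ∈ S, ¬ Q ∣ m ∧ m ∣ Q - 1 ∧ SplC R Q := by
  haveI := Fintype.ofFinite k
  wlog hmm : m.Monic with H
  · obtain ⟨S, h1, h2, h3⟩ := H (K := K) M R (m * C m.leadingCoeff⁻¹)
      (monic_mul_leadingCoeff_inv hm).ne_zero n inferInstance (monic_mul_leadingCoeff_inv hm)
    have hu : IsUnit (C m.leadingCoeff⁻¹ : k[X]) :=
      isUnit_C.2 (isUnit_iff_ne_zero.2 (inv_ne_zero (leadingCoeff_ne_zero.2 hm)))
    refine ⟨S, h1, h2, fun Q hQ => ⟨fun h => (h3 Q hQ).1 (h.mul_right _), ?_, (h3 Q hQ).2.2⟩⟩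
    exact (dvd_mul_right m _).trans (h3 Q hQ).2.1
  obtain ⟨γ₀, g₀, δ₀, hG₀, hd₀⟩ := Pool.Agent.N169.PM.gen k K M
  set F : K[X] := (CP (X : k[X]) m).map (algebraMap k[X] K) with hF
  have hFm : F.Monic := (CP_monic (X : k[X]) hmm).map _
  have hFsep : F.Separable := by
    unfold Polynomial.Separable
    rw [hF, derivative_map, der_CP, map_C]
    refine cop _ ?_
    rw [Ne, IsFractionRing.to_map_eq_zero_iff, aeval_X_left_apply]
    exact hm
  set G : K[X] := g₀.map (algebraMap k[X] K) with hG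
  have hGm : G.Monic := hG₀.monic.map _
  have hint : IsIntegral K γ₀ := Algebra.IsIntegral.isIntegral γ₀
  have hmin : G = minpoly K γ₀ := by
    refine (eq_of_monic_of_dvd_of_natDegree_le (minpoly.monic hint) hGm ?_ ?_)
    · apply minpoly.dvd
      rw [hG, aeval_map_algebraMap]
      exact hG₀.root
    · rw [hG, hG₀.monic.natDegree_map, hd₀,
        (Field.primitive_element_iff_minpoly_natDegree_eq K γ₀).1 hG₀.top]
  have hGsp : (G.map (algebraMap K M)).Splits := by
    rw [hmin]
    exact Normal.splits inferInstance γ₀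
  obtain ⟨L, iF, iK, iM, iT, hGal, hfd, hsp⟩ := exists_ext M F hFsep hFm.ne_zero
  letI : Algebra k[X] L := ((algebraMap K L).comp (algebraMap k[X] K)).toAlgebra
  haveI : IsScalarTower k[X] K L := IsScalarTower.of_algebraMap_eq fun x => rfl
  obtain ⟨γ, g, δ, hGen, hd⟩ := Pool.Agent.N169.PM.gen k K L
  have hsp1 : ((CP (X : k[X]) m).map (algebraMap k[X] L)).Splits := by
    rw [hF, Polynomial.map_map, ← IsScalarTower.algebraMap_eq k[X] K L] at hsp
    exact hsp
  have hsp2 : (g₀.map (algebraMap k[X] L)).Splits := by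
    have h1 : ((G.map (algebraMap K M)).map (algebraMap M L)).Splits := hGsp.map _
    rw [Polynomial.map_map, ← IsScalarTower.algebraMap_eq K M L, hG, Polynomial.map_map,
      ← IsScalarTower.algebraMap_eq k[X] K L] at h1
    exact h1
  obtain ⟨Δ, hΔ0, hΔ⟩ := splits_mod γ g δ hGen hd (CP (X : k[X]) m) (CP_monic (X : k[X]) hmm) hsp1
  obtain ⟨Δ', hΔ0', hΔ'⟩ := splits_mod γ g δ hGen hd g₀ hG₀.monic hsp2
  have hg0 : g.natDegree ≠ 0 := by
    rw [hd]; exact Module.finrank_pos.ne'
  have hinf : {Q : k[X] | (Q.Monic ∧ Irreducible Q) ∧ ¬ Q ∣ m ∧ m ∣ Q - 1 ∧ SplC R Q}.Infinite := by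
    intro hfin
    set P₀ : k[X] := m * (Δ * (Δ' * (δ₀ * ∏ Q ∈ hfin.toFinset, Q))) with hPi
    have hPi0 : P₀ ≠ 0 := by
      refine mul_ne_zero hm (mul_ne_zero hΔ0 (mul_ne_zero hΔ0' (mul_ne_zero hG₀.ne
        (Finset.prod_ne_zero_iff.2 fun Q hQ => ?_))))
      exact (hfin.mem_toFinset.1 hQ).1.1.ne_zero
    obtain ⟨Q, c, h1, h2, h3, h4⟩ := Pool.Agent.N2.PM.claim2 g hGen.monic hg0 P₀ hPi0
    have hQm : ¬ Q ∣ m := fun h => h3 (h.mul_right _)
    have hQΔ : ¬ Q ∣ Δ := fun h => h3 ((h.mul_right _).mul_left _)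
    have hQΔ' : ¬ Q ∣ Δ' := fun h => h3 (((h.mul_right _).mul_left _).mul_left _)
    have hQδ : ¬ Q ∣ δ₀ := fun h => h3 ((((h.mul_right _).mul_left _).mul_left _).mul_left _)
    have h5 := hΔ Q h2 hQΔ c h4
    have h5' := hΔ' Q h2 hQΔ' c h4
    have h6 := one_of_splits hmm h1 h2 hQm h5
    have h7 : SplitMod Q g₀ := Pool.Agent.N2.PM.splitMod_of_splits Q
      (PrincipalIdealRing.isMaximal_of_irreducible h2) g₀ hG₀.monic h5'
    have h8 : SplC R Q := fun w hw =>
      ⟨unram R hG₀ h2 hQδ w hw, fun y => res_split R hG₀ h2 hQδ h7 w hw y⟩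
    apply h3
    exact ((((Finset.dvd_prod_of_mem _ (hfin.mem_toFinset.2 ⟨⟨h1, h2⟩, hQm, h6, h8⟩)).mul_left
      _).mul_left _).mul_left _).mul_left _
  obtain ⟨S, hS1, hS2⟩ := hinf.exists_subset_card_eq n
  exact ⟨S, fun Q hQ => (hS1 hQ).1, hS2, fun Q hQ => (hS1 hQ).2⟩

/-- Only finitely many primes are ramified. -/
theorem exists_ram {k : Type} [Field k] [Finite k] {K : Type} [Field K] [Algebra k[X] K]
    [IsFractionRing k[X] K] (M : Type) [Field M] [Algebra K M] [Algebra k[X] M]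
    [IsScalarTower k[X] K M] [FiniteDimensional K M] [IsGalois K M]
    (R : Type) [CommRing R] [IsDedekindDomain R] [Algebra R M] [IsFractionRing R M]
    [Algebra k[X] R] [IsScalarTower k[X] R M] [IsIntegralClosure R k[X] M] :
    ∃ δ : k[X], δ ≠ 0 ∧ ∀ P : k[X], Irreducible P → ¬ P ∣ δ → ∀ w : HeightOneSpectrum R,
      algebraMap k[X] R P ∈ w.asIdeal → algebraMap k[X] R P ∉ w.asIdeal ^ 2 := by
  obtain ⟨γ₀, g₀, δ₀, hG₀, hd₀⟩ := Pool.Agent.N169.PM.gen k K M
  exact ⟨δ₀, hG₀.ne, fun P hP hPδ w hw => unram R hG₀ hP hPδ w hw⟩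

end Pool.Agent.H859.TWC
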